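import Pool.Agent.CGD.Defs
import Pool.Agent.ASG.KSeq
import Pool.Agent.ASG.CpCt

/-!
# CGD/Conv: in `k_ω` groups and in metrizable groups the games are determined

The sequences converging to `g` are described by countably many decreasing sequences of sets `W n m`: an open set
containing `g` contains some `W n m` for each `n`, and a sequence converging to `g` has an `n` such that it is eventually
in `W n m` for all `m`.
-/

set_option autoImplicit false

namespace Pool.Agent.CGD

open Set Topology Filter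
open Pool.Agent.ASG (IsKOmega k_seq cp_ct)

theorem conv_sys {G : Type} [TopologicalSpace G] [T2Space G] [Countable G]
    (h : IsKOmega G ∨ TopologicalSpace.MetrizableSpace G) (g : G) :
    ∃ W : ℕ → ℕ → Set G, (∀ n, Antitone (W n)) ∧
      (∀ n (O : Set G), IsOpen O → g ∈ O → ∃ m, W n m ⊆ O) ∧
      ∀ x : ℕ → G, Tendsto x atTop (𝓝 g) → ∃ n, ∀ m, ∀ᶠ k in atTop, x k ∈ W n m := by
  rcases h with h | h
  · obtain ⟨K, hK, -, -, hs⟩ := k_seq h
    choose O hO1 hO2 using fun n => cp_ct (hK n)
    refine ⟨fun n m => {x | x ∈ K n ∧ g ∈ K n ∧ ∀ k ≤ m, g ∈ O n k → x ∈ O n k}, ?_, ?_, ?_⟩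
    · rintro n a b hab x ⟨h1, h2, h3⟩
      exact ⟨h1, h2, fun k hk => h3 k (hk.trans hab)⟩
    · intro n A hA hg
      by_cases h1 : g ∈ K n
      · obtain ⟨k, hk1, hk2⟩ := hO2 n A hA g ⟨hg, h1⟩
        exact ⟨k, fun x hx => hk2 ⟨hx.2.2 k le_rfl hk1, hx.1⟩⟩
      · exact ⟨0, fun x hx => (h1 hx.2.1).elim⟩
    · intro x hx
      obtain ⟨n, hn⟩ := hs x g hx
      have h1 : g ∈ K n := (hK n).isClosed.mem_of_tendsto hx (Eventually.of_forall hn)
      refine ⟨n, fun m => ?_⟩
      have h2 : ∀ k ∈ Finset.range (m + 1), ∀ᶠ i in atTop, g ∈ O n k → x i ∈ O n k := by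
        intro k _
        by_cases h3 : g ∈ O n k
        · filter_upwards [hx.eventually ((hO1 n k).mem_nhds h3)] with i hi _
          exact hi
        · exact Eventually.of_forall fun i h4 => (h3 h4).elim
      filter_upwards [(eventually_all_finset _).2 h2] with i hi
      exact ⟨hn i, h1, fun k hk => hi k (Finset.mem_range.2 (by omega))⟩
  · obtain ⟨B, hB⟩ := (𝓝 g).exists_antitone_basis
    refine ⟨fun _ m => B m, fun _ => hB.antitone, fun _ O hO hg => ?_, fun x hx => ⟨0, fun m => ?_⟩⟩
    · obtain ⟨m, -, hm⟩ := hB.toHasBasis.mem_iff.1 (hO.mem_nhds hg)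
      exact ⟨m, hm⟩
    · exact hx.eventually (hB.toHasBasis.mem_of_mem trivial)

/-- in the presence of such a system the games of ideals are determined -/
theorem det_of_sys {R G : Type} [TopologicalSpace G] [Nonempty R] (p : R → G) (g : G) {P : Set R → Prop}
    (hS : ∀ A B, A ⊆ B → P A → P B) (hU : ∀ A B, P (A ∪ B) → P A ∨ P B) (hE : ¬ P ∅)
    (h : ∃ W : ℕ → ℕ → Set G, (∀ n, Antitone (W n)) ∧
      (∀ n (O : Set G), IsOpen O → g ∈ O → ∃ m, W n m ⊆ O) ∧
      ∀ x : ℕ → G, Tendsto x atTop (𝓝 g) → ∃ n, ∀ m, ∀ᶠ k in atTop, x k ∈ W n m) :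
    OneWins p g P ∨ TwoWins p g P := by
  classical
  obtain ⟨W, hW1, hW2, hW3⟩ := h
  by_cases h1 : ∃ n, ∀ m, P (p ⁻¹' W n m)
  · left
    obtain ⟨n, hn⟩ := h1
    refine ⟨fun l => p ⁻¹' W n l.length, fun l => hn _, fun c hc => ?_⟩
    rw [tendsto_nhds]
    intro O hO hg
    obtain ⟨m, hm⟩ := hW2 n O hO hg
    filter_upwards [eventually_ge_atTop m] with k hk
    have h2 : c k ∈ p ⁻¹' W n ((List.range k).map c).length := hc k
    rw [List.length_map, List.length_range] at h2
    exact hm (hW1 n hk h2)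
  · right
    push Not at h1
    choose m hm using h1
    have h2 : ∀ k, ¬ P (⋃ i ∈ Finset.range k, p ⁻¹' W i (m i)) := by
      intro k
      induction k with
      | zero => simpa using hE
      | succ k ih =>
        rw [Finset.range_add_one, Finset.set_biUnion_insert]
        intro h3
        rcases hU _ _ h3 with h4 | h4
        · exact hm k h4
        · exact ih h4
    have h3 : ∀ k V, P V → ∃ c ∈ V, ∀ i < k, p c ∉ W i (m i) := by
      intro k V hV
      by_contra h4
      push Not at h4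
      refine h2 k (hS _ _ (fun c hc => ?_) hV)
      obtain ⟨i, hi, hi'⟩ := h4 c hc
      exact mem_biUnion (Finset.mem_coe.2 (Finset.mem_range.2 hi)) hi'
    let τ : List (Set R) → R := fun l =>
      if h : ∃ c, c ∈ l.getLastD ∅ ∧ ∀ i < l.length, p c ∉ W i (m i) then h.choose else Classical.arbitrary R
    have h4 : ∀ V : ℕ → Set R, (∀ k, P (V k)) → ∀ k, τ ((List.range (k + 1)).map V) ∈ V k ∧
        ∀ i < k + 1, p (τ ((List.range (k + 1)).map V)) ∉ W i (m i) := by
      intro V hV k
      have h5 : ((List.range (k + 1)).map V).getLastD ∅ = V k := by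
        rw [List.range_succ, List.map_append, List.map_singleton]
        simp
      have h6 : ((List.range (k + 1)).map V).length = k + 1 := by simp
      have h7 : ∃ c, c ∈ ((List.range (k + 1)).map V).getLastD ∅ ∧
          ∀ i < ((List.range (k + 1)).map V).length, p c ∉ W i (m i) := by
        rw [h5, h6]
        obtain ⟨c, hc, hc'⟩ := h3 (k + 1) (V k) (hV k)
        exact ⟨c, hc, hc'⟩
      have h8 : τ ((List.range (k + 1)).map V) = h7.choose := dif_pos h7
      have h9 := h7.choose_spec
      rw [← h8] at h9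
      rw [h5, h6] at h9
      exact h9
    refine ⟨τ, fun V hV => ⟨fun k => (h4 V hV k).1, fun h5 => ?_⟩⟩
    obtain ⟨n, hn⟩ := hW3 _ h5
    obtain ⟨k, hk, hk'⟩ := ((hn (m n)).and (eventually_ge_atTop n)).exists
    exact (h4 V hV k).2 n (by omega) hk

end Pool.Agent.CGD
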