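import Pool.Agent.CGD.Main

/-!
# CGD/Cov: the covering property

`Cov A`: for every family of closed sets, `A` is covered by countably many members or contains a continuous image of a
nonempty second countable Baire space such that the image of no nonempty open set is contained in a member of the family.
Analytic sets have this property.
-/

set_option autoImplicit false

namespace Pool.Agent.CGD

open Set Topology Filter MeasureTheory
open Pool.Agent.ASG (IsKOmega NotC CD Big ConvTo comp)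
open Pool.Agent.CSD (An Null Det)

/-- the covering property -/
def Cov {X : Type} [TopologicalSpace X] (A : Set X) : Prop :=
  ∀ ℰ : Set (Set X), (∀ E ∈ ℰ, IsClosed E) →
    (∃ 𝒞 ⊆ ℰ, 𝒞.Countable ∧ A ⊆ ⋃₀ 𝒞) ∨
    ∃ (H : Type) (_ : TopologicalSpace H) (_ : SecondCountableTopology H) (_ : BaireSpace H) (_ : Nonempty H)
      (φ : H → X),
      Continuous φ ∧ range φ ⊆ A ∧ ∀ U : Set H, IsOpen U → U.Nonempty → ∀ E ∈ ℰ, ¬ φ '' U ⊆ E

theorem cov_of_analytic {X : Type} [TopologicalSpace X] {A : Set X} (hA : AnalyticSet A) : Cov A := by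
  intro ℰ hℰ
  rw [AnalyticSet_def] at hA
  rcases hA with rfl | ⟨f, hf, rfl⟩
  · exact Or.inl ⟨∅, empty_subset _, countable_empty, empty_subset _⟩
  obtain ⟨b, hbc, -, hb⟩ := TopologicalSpace.exists_countable_basis (ℕ → ℕ)
  have hch : ∀ s : Set (ℕ → ℕ), ∃ 𝒞 : Set (Set X), 𝒞 ⊆ ℰ ∧ 𝒞.Countable ∧
      ((∃ 𝒞 ⊆ ℰ, 𝒞.Countable ∧ f '' s ⊆ ⋃₀ 𝒞) → f '' s ⊆ ⋃₀ 𝒞) := by
    intro s
    by_cases h : ∃ 𝒞 ⊆ ℰ, 𝒞.Countable ∧ f '' s ⊆ ⋃₀ 𝒞
    · obtain ⟨𝒞, h1, h2, h3⟩ := h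
      exact ⟨𝒞, h1, h2, fun _ => h3⟩
    · exact ⟨∅, empty_subset _, countable_empty, fun h' => (h h').elim⟩
  choose 𝒞 h1 h2 h3 using hch
  obtain ⟨O, hO⟩ : ∃ O, O = ⋃₀ {s ∈ b | ∃ 𝒞 ⊆ ℰ, 𝒞.Countable ∧ f '' s ⊆ ⋃₀ 𝒞} := ⟨_, rfl⟩
  have hOo : IsOpen O := by
    rw [hO]
    exact isOpen_sUnion fun s hs => hb.isOpen hs.1
  have hOc : f '' O ⊆ ⋃₀ (⋃ s ∈ b, 𝒞 s) := by
    rintro _ ⟨x, hx, rfl⟩
    rw [hO] at hx
    obtain ⟨s, ⟨hs, hs'⟩, hxs⟩ := hx
    obtain ⟨E, hE, hxE⟩ := h3 s hs' (mem_image_of_mem f hxs)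
    exact ⟨E, mem_biUnion hs hE, hxE⟩
  have hCc : (⋃ s ∈ b, 𝒞 s).Countable := hbc.biUnion fun s _ => h2 s
  have hCs : (⋃ s ∈ b, 𝒞 s) ⊆ ℰ := iUnion₂_subset fun s _ => h1 s
  by_cases hF : Oᶜ = ∅
  · left
    refine ⟨_, hCs, hCc, ?_⟩
    rw [compl_empty_iff] at hF
    rw [hF, image_univ] at hOc
    exact hOc
  · right
    have hFc : IsClosed Oᶜ := hOo.isClosed_compl
    obtain ⟨y, hy⟩ := nonempty_iff_ne_empty.2 hF
    have hP : PolishSpace (Oᶜ : Set (ℕ → ℕ)) := hFc.polishSpace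
    refine ⟨(Oᶜ : Set (ℕ → ℕ)), inferInstance, inferInstance, inferInstance, ⟨⟨y, hy⟩⟩, fun x => f x,
      hf.comp continuous_subtype_val, ?_, ?_⟩
    · rintro _ ⟨x, rfl⟩
      exact mem_range_self _
    · rintro U hU ⟨x, hx⟩ E hE hUE
      obtain ⟨W, hW, rfl⟩ := isOpen_induced_iff.1 hU
      obtain ⟨s, hs, hxs, hsW⟩ := hb.exists_subset_of_mem_open hx hW
      apply x.2
      have hxO : (x : ℕ → ℕ) ∈ ⋃₀ {s ∈ b | ∃ 𝒞 ⊆ ℰ, 𝒞.Countable ∧ f '' s ⊆ ⋃₀ 𝒞} → (x : ℕ → ℕ) ∈ O := fun h =>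
        hO ▸ h
      refine hxO ⟨s, ⟨hs, insert E (⋃ s ∈ b, 𝒞 s), insert_subset hE hCs, hCc.insert _, ?_⟩, hxs⟩
      rintro _ ⟨z, hz, rfl⟩
      by_cases hzO : z ∈ O
      · obtain ⟨E', hE', hzE⟩ := hOc (mem_image_of_mem f hzO)
        exact ⟨E', mem_insert_of_mem _ hE', hzE⟩
      · exact ⟨E, mem_insert _ _, hUE ⟨⟨z, hzO⟩, hsW hz, rfl⟩⟩

/-- the dichotomy for topologies with the covering property; `m x` is the set of all codes of sets containing `x` -/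
theorem dic_of_cov {X G R : Type} [TopologicalSpace X] [TopologicalSpace G] {A : Set X} (hA : Cov A)
    (m : G → Set X) (hm : ∀ x, IsClopen (m x)) (h1 : ∀ a ∈ A, IsOpen {x | a ∈ m x})
    (h2 : ∀ O : Set G, IsOpen O → ∃ a ∈ A, ∀ x, a ∈ m x ↔ x ∈ O) (p : R → G) (g : G) (P : Set R → Prop) :
    Dic p g P := by
  classical
  let Vs : Set X → Set R := fun E => {c | ∀ a ∈ E, a ∈ m (p c)}
  obtain ⟨ℰ, hℰ⟩ : ∃ ℰ : Set (Set X), ℰ = insert (m g)ᶜ {E | IsClosed E ∧ P (Vs E)} := ⟨_, rfl⟩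
  rcases hA ℰ (by
    rw [hℰ]
    rintro E (rfl | hE)
    · exact (hm g).2.isClosed_compl
    · exact hE.1) with ⟨𝒞, hC1, hC2, hC3⟩ | ⟨H, _, _, _, _, φ, hφ, hr, hU⟩
  · left
    have h3 : ∀ O : Set G, IsOpen O → g ∈ O → ∃ E ∈ {E ∈ 𝒞 | P (Vs E)}, Vs E ⊆ p ⁻¹' O := by
      intro O hO hg
      obtain ⟨a, ha, haO⟩ := h2 O hO
      obtain ⟨E, hE, haE⟩ := hC3 ha
      have h4 := hC1 hE
      rw [hℰ] at h4
      rcases h4 with h4 | h4
      · rw [h4] at haE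
        exact (haE ((haO g).2 hg)).elim
      · exact ⟨E, ⟨hE, h4.2⟩, fun c hc => (haO _).1 (hc a haE)⟩
    obtain ⟨E0, hE0, -⟩ := h3 univ isOpen_univ (mem_univ g)
    obtain ⟨e, he⟩ := (hC2.mono (sep_subset 𝒞 fun E => P (Vs E))).exists_eq_range ⟨E0, hE0⟩
    refine ⟨fun i => Vs (e i), fun i => ?_, fun O hO hg => ?_⟩
    · have h4 : e i ∈ {E ∈ 𝒞 | P (Vs E)} := he ▸ mem_range_self i
      exact h4.2
    · obtain ⟨E, hE, hEO⟩ := h3 O hO hg
      rw [he] at hE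
      obtain ⟨i, rfl⟩ := hE
      exact ⟨i, hEO⟩
  · right
    have h3 : ∀ U : Set H, IsOpen U → U.Nonempty → ¬ P (Vs (φ '' U)) := by
      intro U hUo hUn hP
      have h4 : Vs (closure (φ '' U)) = Vs (φ '' U) := by
        refine Subset.antisymm (fun c hc a ha => hc a (subset_closure ha)) fun c hc a ha => ?_
        exact closure_minimal (fun a ha => hc a ha) (hm (p c)).1 ha
      exact hU U hUo hUn (closure (φ '' U)) (by
        rw [hℰ]
        right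
        exact ⟨isClosed_closure, by rw [h4]; exact hP⟩) subset_closure
    obtain ⟨b, hbc, hb0, hb⟩ := TopologicalSpace.exists_countable_basis H
    obtain ⟨x0⟩ := (inferInstance : Nonempty H)
    obtain ⟨s0, hs0, -, -⟩ := hb.exists_subset_of_mem_open (mem_univ x0) isOpen_univ
    obtain ⟨e, he⟩ := hbc.exists_eq_range ⟨s0, hs0⟩
    refine ⟨fun i => Vs (φ '' e i), fun i => ?_, fun C hC => ?_⟩
    · have h4 : e i ∈ b := he ▸ mem_range_self i
      exact h3 _ (hb.isOpen h4) (nonempty_iff_ne_empty.2 fun h5 => hb0 (h5 ▸ h4))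
    · obtain ⟨H', hH'⟩ : ∃ H', H' = φ ⁻¹' m g := ⟨_, rfl⟩
      have hH'o : IsOpen H' := by
        rw [hH']
        exact (hm g).2.preimage hφ
      have hH'd : ∀ U : Set H, IsOpen U → U.Nonempty → (U ∩ H').Nonempty := by
        intro U hUo hUn
        rw [nonempty_iff_ne_empty, hH']
        intro h5
        refine hU U hUo hUn (m g)ᶜ (by rw [hℰ]; exact mem_insert _ _) ?_
        rintro _ ⟨x, hxU, rfl⟩ hx
        have h6 : x ∈ U ∩ φ ⁻¹' m g := ⟨hxU, hx⟩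
        rw [h5] at h6
        exact h6
      -- an injective sequence in `C`
      obtain ⟨c, hcC, hci⟩ : ∃ c : ℕ → R, (∀ k, c k ∈ C) ∧ Function.Injective c :=
        ⟨fun k => (hC.1.natEmbedding C k : R), fun k => (hC.1.natEmbedding C k).2,
          Subtype.val_injective.comp (hC.1.natEmbedding C).injective⟩
      have h4 : ∀ x ∈ H', ∃ n, ∀ k, n ≤ k → φ x ∈ m (p (c k)) := by
        intro x hx
        rw [hH'] at hx
        have h5 : (C \ p ⁻¹' {y | φ x ∈ m y}).Finite := hC.2 _ (h1 _ (hr (mem_range_self x))) hx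
        have h6 : {k | c k ∈ C \ p ⁻¹' {y | φ x ∈ m y}}.Finite := h5.preimage hci.injOn
        obtain ⟨n, hn⟩ := h6.bddAbove
        refine ⟨n + 1, fun k hk => ?_⟩
        by_contra h7
        have := hn (show k ∈ {k | c k ∈ C \ p ⁻¹' {y | φ x ∈ m y}} from ⟨hcC k, h7⟩)
        omega
      have h5 : ∀ n, IsClosed ({x | ∀ k, n ≤ k → φ x ∈ m (p (c k))} ∪ H'ᶜ) := by
        intro n
        refine IsClosed.union ?_ hH'o.isClosed_compl
        have h7 : {x | ∀ k, n ≤ k → φ x ∈ m (p (c k))} = ⋂ k, ⋂ (_ : n ≤ k), φ ⁻¹' m (p (c k)) := by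
          ext x
          simp only [mem_iInter]
          rfl
        rw [h7]
        exact isClosed_iInter fun k => isClosed_iInter fun _ => (hm _).1.preimage hφ
      have h6 : ⋃ n, ({x | ∀ k, n ≤ k → φ x ∈ m (p (c k))} ∪ H'ᶜ) = univ := by
        rw [eq_univ_iff_forall]
        intro x
        by_cases hx : x ∈ H'
        · obtain ⟨n, hn⟩ := h4 x hx
          exact mem_iUnion.2 ⟨n, Or.inl hn⟩
        · exact mem_iUnion.2 ⟨0, Or.inr hx⟩
      obtain ⟨n, hn⟩ := nonempty_interior_of_iUnion_of_closed h5 h6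
      obtain ⟨x, hx, hx'⟩ := hH'd _ isOpen_interior hn
      obtain ⟨s, hs, -, hsub⟩ := hb.exists_subset_of_mem_open
        (show x ∈ interior ({x | ∀ k, n ≤ k → φ x ∈ m (p (c k))} ∪ H'ᶜ) ∩ H' from ⟨hx, hx'⟩)
        (isOpen_interior.inter hH'o)
      obtain ⟨i, rfl⟩ : s ∈ range e := he ▸ hs
      refine ⟨i, ((infinite_range_of_injective (f := fun k => c (n + k)) ?_)).mono ?_⟩
      · intro a b hab
        have := hci hab
        omega
      · rintro _ ⟨k, rfl⟩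
        refine ⟨hcC _, ?_⟩
        rintro _ ⟨y, hy, rfl⟩
        obtain ⟨hy1, hy2⟩ := hsub hy
        rcases interior_subset hy1 with h7 | h7
        · exact h7 _ (Nat.le_add_right _ _)
        · exact (h7 hy2).elim

end Pool.Agent.CGD
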