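import Pool.Agent.CGD.Cov

/-!
# CGD/CovSeq: topologies determined by a set of sequences with the covering property
-/

set_option autoImplicit false

namespace Pool.Agent.CGD

open Set Topology Filter MeasureTheory
open Pool.Agent.ASG (IsKOmega NotC CD Big ConvTo comp)
open Pool.Agent.CSD (An Null Det Tr track seq_of_det)

private theorem CovSeq_clopen {D : Type} [TopologicalSpace D] [DiscreteTopology D] (n : ℕ) (K : Set D) :
    IsClopen {a : ℕ → D | a n ∈ K} :=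
  (isClopen_discrete K).preimage (continuous_apply n)

private theorem CovSeq_closed {D : Type} [TopologicalSpace D] [DiscreteTopology D] (N : ℕ) (K : Set D) :
    IsClosed {a : ℕ → D | ∀ n, N ≤ n → a n ∈ K} := by
  have h : {a : ℕ → D | ∀ n, N ≤ n → a n ∈ K} = ⋂ n, ⋂ (_ : N ≤ n), {a : ℕ → D | a n ∈ K} := by
    ext a
    simp
  rw [h]
  exact isClosed_iInter fun n => isClosed_iInter fun _ => (CovSeq_clopen n K).1

private theorem CovSeq_open {D H : Type} [TopologicalSpace D] [DiscreteTopology D] [TopologicalSpace H]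
    {φ : H → ℕ → D} (hφ : Continuous φ) (N : ℕ) (K : Set D) : IsOpen {u : H | ∃ n, N ≤ n ∧ φ u n ∈ K} := by
  have h : {u : H | ∃ n, N ≤ n ∧ φ u n ∈ K} = ⋃ n, ⋃ (_ : N ≤ n), φ ⁻¹' {a : ℕ → D | a n ∈ K} := by
    ext a
    simp
  rw [h]
  exact isOpen_iUnion fun n => isOpen_iUnion fun _ => (CovSeq_clopen n K).2.preimage hφ

/-- the covering property for the discrete topology of `G` -/
def CovF {G : Type} (𝒜 : Set (ℕ → G)) : Prop :=
  @Cov (ℕ → G) (@Pi.topologicalSpace ℕ (fun _ => G) (fun _ => ⊥)) 𝒜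

theorem CovF.spec {G : Type} {𝒜 : Set (ℕ → G)} (h : CovF 𝒜) (P : ℕ → Set G → Prop) :
    (∃ K : Set (ℕ × Set G), K.Countable ∧ (∀ k ∈ K, P k.1 k.2) ∧
      ∀ a ∈ 𝒜, ∃ k ∈ K, ∀ n, k.1 ≤ n → a n ∈ k.2) ∨
    ∃ (H : Type) (_ : TopologicalSpace H) (_ : SecondCountableTopology H) (_ : BaireSpace H) (_ : Nonempty H)
      (φ : H → ℕ → G),
      (∀ (N : ℕ) (K : Set G), IsOpen {u : H | ∃ n, N ≤ n ∧ φ u n ∈ K}) ∧ (∀ u, φ u ∈ 𝒜) ∧
      ∀ U : Set H, IsOpen U → U.Nonempty → ∀ N K, P N K → ∃ u ∈ U, ∃ n, N ≤ n ∧ φ u n ∉ K := by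
  let _ : TopologicalSpace G := ⊥
  have _ : DiscreteTopology G := ⟨rfl⟩
  have h' : Cov 𝒜 := h
  rcases h' {E | ∃ N K, P N K ∧ E = {a : ℕ → G | ∀ n, N ≤ n → a n ∈ K}} (by
    rintro _ ⟨N, K, -, rfl⟩
    exact CovSeq_closed N K) with ⟨𝒞, h1, h2, h3⟩ | ⟨H, tH, sH, pH, nH, φ, hφ, hr, hU⟩
  · left
    have h4 : ∀ E : Set (ℕ → G), ∃ k : ℕ × Set G, E ∈ 𝒞 → P k.1 k.2 ∧ E = {a : ℕ → G | ∀ n, k.1 ≤ n → a n ∈ k.2} := by
      intro E
      by_cases hE : E ∈ 𝒞
      · obtain ⟨N, K, hP, hEq⟩ := h1 hE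
        exact ⟨(N, K), fun _ => ⟨hP, hEq⟩⟩
      · exact ⟨(0, ∅), fun h => (hE h).elim⟩
    choose k hk using h4
    refine ⟨k '' 𝒞, h2.image k, ?_, fun a ha => ?_⟩
    · rintro _ ⟨E, hE, rfl⟩
      exact (hk E hE).1
    · obtain ⟨E, hE, haE⟩ := h3 ha
      refine ⟨k E, mem_image_of_mem k hE, ?_⟩
      rw [(hk E hE).2] at haE
      exact haE
  · right
    refine ⟨H, tH, sH, pH, nH, φ, fun N K => CovSeq_open hφ N K, fun u => hr (mem_range_self u), ?_⟩
    intro U hUo hUn N K hP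
    by_contra hcon
    push Not at hcon
    refine hU U hUo hUn _ ⟨N, K, hP, rfl⟩ ?_
    rintro _ ⟨u, hu, rfl⟩ n hn
    exact hcon u hu n hn

theorem dic_seq_cov {G R : Type} [Group G] [TopologicalSpace G] [IsTopologicalGroup G] [T2Space G] [Countable G]
    {𝒜 : Set (ℕ → G)} (hc : CovF 𝒜) (hd : Det 𝒜) (p : R → G) (g : G) (P : Set R → Prop) : Dic p g P := by
  classical
  rcases 𝒜.eq_empty_or_nonempty with h𝒜 | h𝒜
  · have : DiscreteTopology G := by
      rw [discreteTopology_iff_forall_isOpen]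
      intro U
      apply hd.2
      intro x _ a ha
      rw [h𝒜] at ha
      exact ha.elim
    exact dic_all (Or.inr inferInstance) p g P
  by_cases h0 : P (p ⁻¹' {g})
  · left
    exact ⟨fun _ => p ⁻¹' {g}, fun _ => h0, fun O _ hg => ⟨0, preimage_mono (singleton_subset_iff.2 hg)⟩⟩
  rcases hc.spec fun N K => ∃ S F : Set R, ¬ P S ∧ F.Finite ∧ K = {x | ∀ c, p c = g * x → c ∈ S ∪ F} with
    ⟨𝒦, hK1, hK2, hK3⟩ | ⟨H, _, _, _, _, φ, hφ, hr, hU⟩
  · right
    have h1 : ∀ k : ℕ × Set G, ∃ S F : Set R, k ∈ 𝒦 → ¬ P S ∧ F.Finite ∧ k.2 = {x | ∀ c, p c = g * x → c ∈ S ∪ F} := by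
      intro k
      by_cases hk : k ∈ 𝒦
      · obtain ⟨S, F, h⟩ := hK2 k hk
        exact ⟨S, F, fun _ => h⟩
      · exact ⟨∅, ∅, fun h => (hk h).elim⟩
    choose S F hSF using h1
    obtain ⟨V, hV⟩ := ((hK1.image S).insert (p ⁻¹' {g})).exists_eq_range (insert_nonempty _ _)
    refine ⟨V, fun i => ?_, fun C hC => ?_⟩
    · have h2 : V i ∈ insert (p ⁻¹' {g}) (S '' 𝒦) := hV ▸ mem_range_self i
      rcases h2 with h2 | ⟨k, hk, h2⟩
      · rw [h2]
        exact h0
      · rw [← h2]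
        exact (hSF k hk).1
    · by_cases h3 : (C ∩ p ⁻¹' {g}).Infinite
      · have h2 : p ⁻¹' {g} ∈ range V := hV ▸ mem_insert _ _
        obtain ⟨i, hi⟩ := h2
        exact ⟨i, by rw [hi]; exact h3⟩
      · have h4 : (C \ p ⁻¹' {g}).Infinite := by
          intro h5
          apply hC.1
          rw [← sdiff_union_inter C (p ⁻¹' {g})]
          exact h5.union (not_infinite.1 h3)
        -- a parametrisation of `𝒜`, not necessarily continuous
        obtain ⟨i, hi⟩ := exists_injective_nat G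
        have : Nonempty 𝒜 := h𝒜.to_subtype
        have hj : Function.Injective fun (a : 𝒜) (n : ℕ) => i ((a : ℕ → G) n) := by
          intro a b hab
          apply Subtype.ext
          funext n
          exact hi (congrFun hab n)
        obtain ⟨f, hf⟩ : ∃ f : (ℕ → ℕ) → 𝒜, Function.Surjective f :=
          ⟨Function.invFun fun (a : 𝒜) (n : ℕ) => i ((a : ℕ → G) n), Function.invFun_surjective hj⟩
        obtain ⟨w, hw⟩ := track (f := fun w => (f w : ℕ → G)) (p := p) (g := g) (fun w => hd.1 _ (f w).2)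
          (fun U hU => hd.2 U fun x hx a ha => by
            obtain ⟨w, hw⟩ := hf ⟨a, ha⟩
            have h5 := hU x hx w
            rw [hw] at h5
            exact h5) hC.2 h4
        obtain ⟨k, hk, hk'⟩ := hK3 _ (f w).2
        obtain ⟨h5, h6, h7⟩ := hSF k hk
        have h8 : S k ∈ range V := hV ▸ mem_insert_of_mem _ (mem_image_of_mem S hk)
        obtain ⟨i, hi⟩ := h8
        refine ⟨i, ?_⟩
        rw [hi]
        refine ((hw k.1).sdiff h6).mono ?_
        rintro c ⟨⟨hc, n, hn, hcn⟩, hcF⟩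
        have h9 := hk' n hn
        rw [h7] at h9
        exact ⟨hc.1, (h9 c hcn.symm).resolve_right hcF⟩
  · left
    have h1 : ∀ U : Set H, IsOpen U → U.Nonempty → ∀ N,
        P {c | ∃ u ∈ U, ∃ n, N ≤ n ∧ g * φ u n = p c} := by
      intro U hUo hUn N
      by_contra hP
      obtain ⟨u, hu, n, hn, h2⟩ := hU U hUo hUn N _ ⟨_, ∅, hP, finite_empty, rfl⟩
      apply h2
      intro c hc
      exact Or.inl ⟨u, hu, n, hn, hc.symm⟩
    obtain ⟨b, hbc, hb0, hb⟩ := TopologicalSpace.exists_countable_basis H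
    obtain ⟨x0⟩ := (inferInstance : Nonempty H)
    obtain ⟨s0, hs0, -, -⟩ := hb.exists_subset_of_mem_open (mem_univ x0) isOpen_univ
    obtain ⟨e, he⟩ := hbc.exists_eq_range ⟨s0, hs0⟩
    refine ⟨fun k => {c | ∃ u ∈ e k.unpair.1, ∃ n, k.unpair.2 ≤ n ∧ g * φ u n = p c}, fun k => ?_,
      fun O hO hg => ?_⟩
    · have h4 : e k.unpair.1 ∈ b := he ▸ mem_range_self _
      exact h1 _ (hb.isOpen h4) (nonempty_iff_ne_empty.2 fun h5 => hb0 (h5 ▸ h4)) _
    · by_contra hcon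
      push Not at hcon
      have h2 : ∀ N, IsOpen {u : H | ∃ n, N ≤ n ∧ φ u n ∈ {x | g * x ∉ O}} := fun N => hφ N _
      have h3 : ∀ N, Dense {u : H | ∃ n, N ≤ n ∧ φ u n ∈ {x | g * x ∉ O}} := by
        intro N
        rw [hb.dense_iff]
        intro s hs _
        obtain ⟨i, rfl⟩ : s ∈ range e := he ▸ hs
        have h4 := hcon (Nat.pair i N)
        rw [Nat.unpair_pair, not_subset] at h4
        obtain ⟨c, ⟨u, hu, n, hn, h5⟩, hcO⟩ := h4
        refine ⟨u, hu, n, hn, ?_⟩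
        show g * φ u n ∉ O
        rw [h5]
        exact hcO
      obtain ⟨u, hu⟩ := (dense_iInter_of_isOpen_nat h2 h3).nonempty
      have h4 : Tendsto (fun n => g * φ u n) atTop (𝓝 g) := by
        have h5 : Tendsto (fun n => g * φ u n) atTop (𝓝 (g * 1)) := (hd.1 _ (hr u)).const_mul g
        rwa [mul_one] at h5
      obtain ⟨N, hN⟩ := eventually_atTop.1 (h4.eventually (hO.mem_nhds hg))
      obtain ⟨n, hn, h5⟩ := mem_iInter.1 hu N
      exact h5 (hN n hn)

theorem cov_main {G : Type} [Group G] [TopologicalSpace G] [IsTopologicalGroup G] [T2Space G] [Countable G]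
    [SequentialSpace G] (h : ∀ (R : Type) (p : R → G) (g : G) (P : Set R → Prop), Dic p g P) :
    IsKOmega G ∨ TopologicalSpace.MetrizableSpace G :=
  of_games (h G _ _ _) (h G _ _ _) fun q g => h _ q g _

theorem of_cov_seq {G : Type} [Group G] [TopologicalSpace G] [IsTopologicalGroup G] [T2Space G] [Countable G]
    {𝒜 : Set (ℕ → G)} (hc : CovF 𝒜) (hd : Det 𝒜) : IsKOmega G ∨ TopologicalSpace.MetrizableSpace G := by
  have := seq_of_det hd.1 hd.2
  exact cov_main fun R p g P => dic_seq_cov hc hd p g P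

theorem of_cov_top {G : Type} [Group G] [TopologicalSpace G] [IsTopologicalGroup G] [T2Space G] [Countable G]
    [SequentialSpace G] (hc : Cov {φ : G → Bool | IsOpen {x | φ x = true}}) :
    IsKOmega G ∨ TopologicalSpace.MetrizableSpace G := by
  classical
  refine cov_main fun R p g P => dic_of_cov hc (fun x => {φ : G → Bool | φ x = true})
    (fun x => (isClopen_discrete ({true} : Set Bool)).preimage (continuous_apply x)) (fun a ha => ha) ?_ p g P
  intro O hO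
  refine ⟨fun x => decide (x ∈ O), ?_, fun x => ?_⟩
  · show IsOpen {x | decide (x ∈ O) = true}
    simpa using hO
  · show decide (x ∈ O) = true ↔ x ∈ O
    simp

theorem main_c (G : Type) [Group G] [TopologicalSpace G] [IsTopologicalGroup G] [T2Space G] [Countable G] :
    [(∃ 𝒜 : Set (ℕ → G), CovF 𝒜 ∧ Det 𝒜), SequentialSpace G ∧ CovF (Null G),
      SequentialSpace G ∧ Cov {φ : G → Bool | IsOpen {x | φ x = true}},
      (∃ 𝒜 : Set (ℕ → G), An 𝒜 ∧ Det 𝒜), SequentialSpace G ∧ An (Null G),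
      SequentialSpace G ∧ AnalyticSet {φ : G → Bool | IsOpen {x | φ x = true}},
      IsKOmega G ∨ TopologicalSpace.MetrizableSpace G].TFAE := by
  have hm := Pool.Agent.CSD.main G
  tfae_have 1 → 7 := fun ⟨_, hc, hd⟩ => of_cov_seq hc hd
  tfae_have 7 → 4 := (hm.out 3 0).1
  tfae_have 4 → 1 := fun ⟨𝒜, ha, hd⟩ =>
    ⟨𝒜, @cov_of_analytic (ℕ → G) (@Pi.topologicalSpace ℕ (fun _ => G) (fun _ => ⊥)) 𝒜 ha, hd⟩
  tfae_have 7 → 5 := (hm.out 3 1).1
  tfae_have 5 → 2 := fun ⟨h1, h2⟩ =>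
    ⟨h1, @cov_of_analytic (ℕ → G) (@Pi.topologicalSpace ℕ (fun _ => G) (fun _ => ⊥)) _ h2⟩
  tfae_have 2 → 1 := by
    rintro ⟨h1, h2⟩
    exact ⟨_, h2, Pool.Agent.CSD.det_null⟩
  tfae_have 7 → 6 := (hm.out 3 2).1
  tfae_have 6 → 3 := fun ⟨h1, h2⟩ => ⟨h1, cov_of_analytic h2⟩
  tfae_have 3 → 7 := by
    rintro ⟨h1, h2⟩
    exact of_cov_top h2
  tfae_finish

end Pool.Agent.CGD
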