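import Pool.Agent.ASG.Defs

/-!
# Convergence games on countable groups (project CGD, MP_a9e3cf_lc): definitions

`R` is a countable set, `p : R → G`, `g ∈ G`, `P` a property of subsets of `R`.
-/

set_option autoImplicit false

namespace Pool.Agent.CGD

open Set Topology Filter
open Pool.Agent.ASG (ConvTo)

variable {R G : Type} [TopologicalSpace G]

/-- the dichotomy: countably many sets in `P` are small near `g`, or countably many sets outside `P` catch the sets
converging to `g` -/
def Dic (p : R → G) (g : G) (P : Set R → Prop) : Prop :=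
  (∃ V : ℕ → Set R, (∀ i, P (V i)) ∧ ∀ O : Set G, IsOpen O → g ∈ O → ∃ i, V i ⊆ p ⁻¹' O) ∨
    ∃ V : ℕ → Set R, (∀ i, ¬ P (V i)) ∧ ∀ C : Set R, ConvTo p C g → ∃ i, (C ∩ V i).Infinite

/-- Player I has a winning strategy in the game in which I plays sets `V k` with `P (V k)`, II plays points
`c k ∈ V k`, and I wins if `p (c k)` converges to `g`. -/
def OneWins (p : R → G) (g : G) (P : Set R → Prop) : Prop :=
  ∃ σ : List R → Set R, (∀ l, P (σ l)) ∧
    ∀ c : ℕ → R, (∀ k, c k ∈ σ ((List.range k).map c)) → Tendsto (fun k => p (c k)) atTop (𝓝 g)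

/-- Player II has a winning strategy in this game. -/
def TwoWins (p : R → G) (g : G) (P : Set R → Prop) : Prop :=
  ∃ τ : List (Set R) → R, ∀ V : ℕ → Set R, (∀ k, P (V k)) →
    (∀ k, τ ((List.range (k + 1)).map V) ∈ V k) ∧
      ¬ Tendsto (fun k => p (τ ((List.range (k + 1)).map V))) atTop (𝓝 g)

/-- the run of a game which follows `f` -/
theorem exists_run {α : Type} (f : List α → α) : ∃ c : ℕ → α, ∀ k, c k = f ((List.range k).map c) := by
  let s : ℕ → List α := fun k => Nat.rec [] (fun _ l => l ++ [f l]) k
  have h1 : ∀ k, s k = (List.range k).map fun i => f (s i) := by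
    intro k
    induction k with
    | zero => rfl
    | succ k ih =>
      rw [List.range_succ, List.map_append, ← ih]
      rfl
  exact ⟨fun k => f (s k), fun k => by rw [← h1 k]⟩

/-- an injective sequence in a set which converges to `g` -/
theorem convTo_tendsto {p : R → G} {g : G} {C : Set R} (h : ConvTo p C g) {c : ℕ → R} (hc : ∀ k, c k ∈ C)
    (hi : Function.Injective c) : Tendsto (fun k => p (c k)) atTop (𝓝 g) := by
  rw [tendsto_nhds]
  intro O hO hg
  have h1 : {k | c k ∈ C \ p ⁻¹' O}.Finite := (h.2 O hO hg).preimage hi.injOn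
  have h2 := h1.eventually_cofinite_notMem
  rw [Nat.cofinite_eq_atTop] at h2
  filter_upwards [h2] with k hk
  by_contra h3
  exact hk ⟨hc k, h3⟩

end Pool.Agent.CGD
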