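import Pool.Agent.CGD.Defs
import Pool.Agent.ASG.Main

/-!
# CGD/Fwd: three instances of the dichotomy suffice

The proof of ASG/Main for groups which satisfy three instances of the dichotomy.
-/

set_option autoImplicit false

namespace Pool.Agent.CGD

open Set Topology Filter
open Pool.Agent.ASG (IsKOmega NotC CD Net Fan Big ConvTo comp kom mk_fan s_one s_two f_one f_two)

private theorem Fwd_net {G : Type*} [Group G] [TopologicalSpace G] {V : ℕ → Set G}
    (hV : ∀ i, NotC (V i)) (hO : ∀ O : Set G, IsOpen O → 1 ∈ O → ∃ i, V i ⊆ id ⁻¹' O) :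
    ∃ h : ℕ → ℕ → G, Net h := by
  choose D hDV hDi hDc using hV
  refine ⟨fun n m => ((hDi n).natEmbedding (D n) m : G), fun n => ?_, fun n z => ?_, ?_⟩
  · exact Subtype.val_injective.comp ((hDi n).natEmbedding (D n)).injective
  · obtain ⟨U, hU, hf⟩ := hDc n z
    refine ⟨U, hU, hf.subset ?_⟩
    rintro _ ⟨hx, m, rfl⟩
    exact ⟨hx, ((hDi n).natEmbedding (D n) m).2⟩
  · intro O hOo h1
    obtain ⟨n, hn⟩ := hO O hOo h1
    exact ⟨n, fun m => hn (hDV n ((hDi n).natEmbedding (D n) m).2)⟩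

theorem fwd {G : Type} [Group G] [TopologicalSpace G] [IsTopologicalGroup G] [T2Space G]
    [Countable G] [SequentialSpace G] {P : Set G → Prop} (hP : ∀ V, P V → NotC V)
    (hP' : ∀ V, ¬ P V → IsCompact (closure V)) (h1 : Dic (id : G → G) 1 P)
    (h2 : Dic (id : G → G) 1 fun V => (interior (closure V)).Nonempty)
    (h3 : ∀ (q : ℕ × ℕ × ℕ → G) (g : G), Dic q g Big) :
    IsKOmega G ∨ TopologicalSpace.MetrizableSpace G := by
  rcases h1 with ⟨V, hV, hO⟩ | ⟨V, hV, hC⟩
  · obtain ⟨h, hh⟩ := Fwd_net (fun i => hP _ (hV i)) hO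
    by_cases hF : FrechetUrysohnSpace G
    · right
      by_cases hd : IsOpen ({1} : Set G)
      · have : DiscreteTopology G := discreteTopology_of_isOpen_singleton_one hd
        infer_instance
      · rcases h2 with ⟨V', hV', hO'⟩ | ⟨V', hV', hC'⟩
        · exact f_one hV' hO'
        · exact (f_two hd (fun i => not_nonempty_iff_eq_empty.1 (hV' i)) hC').elim
    · exfalso
      obtain ⟨y, hy⟩ := mk_fan hF
      by_cases h4 : ∃ g : G, ∃ W : ℕ → Set (ℕ × ℕ × ℕ), (∀ i, Big (W i)) ∧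
          ∀ O : Set G, IsOpen O → g ∈ O →
            ∃ i, W i ⊆ (fun t : ℕ × ℕ × ℕ => h t.1 t.2.1 * y t.1 t.2.2) ⁻¹' O
      · obtain ⟨g, W, hW, hWO⟩ := h4
        exact s_one hy g hW hWO
      · have h5 : ∀ g : G, ∃ W : ℕ → Set (ℕ × ℕ × ℕ), (∀ i, ¬ Big (W i)) ∧
            ∀ C : Set (ℕ × ℕ × ℕ), ConvTo (fun t : ℕ × ℕ × ℕ => h t.1 t.2.1 * y t.1 t.2.2) C g →
              ∃ i, (C ∩ W i).Infinite := by
          intro g
          rcases h3 (fun t : ℕ × ℕ × ℕ => h t.1 t.2.1 * y t.1 t.2.2) g with h6 | h6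
          · exact (h4 ⟨g, h6⟩).elim
          · exact h6
        choose B hB hBC using h5
        obtain ⟨e, he⟩ := exists_surjective_nat (G × ℕ)
        refine s_two hh hy.lim (B := fun k => B (e k).1 (e k).2) (fun k => hB _ _) ?_
        intro g C hCg
        obtain ⟨i, hi⟩ := hBC g C hCg
        obtain ⟨k, hk⟩ := he (g, i)
        exact ⟨k, by simpa [hk] using hi⟩
  · left
    exact kom (fun i => hP' _ (hV i)) hC

end Pool.Agent.CGD
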