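import Mathlib

/-!
# CGD/Gam: classes of subsets of Polish spaces with the usual closure properties
-/

set_option autoImplicit false

namespace Pool.Agent.CGD

open Set Topology Filter MeasureTheory

/-- a class of subsets of Polish spaces which contains the closed sets and is closed under complements, finite unions,
continuous preimages and projections (for example the projective sets) -/
structure GoodClass (Γ : (X : Type) → [TopologicalSpace X] → Set X → Prop) : Prop where
  closed : ∀ (X : Type) [TopologicalSpace X] [PolishSpace X] (A : Set X), IsClosed A → Γ X A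
  compl : ∀ (X : Type) [TopologicalSpace X] [PolishSpace X] (A : Set X), Γ X A → Γ X Aᶜ
  union : ∀ (X : Type) [TopologicalSpace X] [PolishSpace X] (A B : Set X), Γ X A → Γ X B → Γ X (A ∪ B)
  preimage : ∀ (X Y : Type) [TopologicalSpace X] [PolishSpace X] [TopologicalSpace Y] [PolishSpace Y]
    (f : X → Y) (A : Set Y), Continuous f → Γ Y A → Γ X (f ⁻¹' A)
  proj : ∀ (X Y : Type) [TopologicalSpace X] [PolishSpace X] [TopologicalSpace Y] [PolishSpace Y]
    (A : Set (X × Y)), Γ (X × Y) A → Γ X (Prod.fst '' A)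

theorem pol_prod_aux (X Y : Type) [TopologicalSpace X] [PolishSpace X] [TopologicalSpace Y] [PolishSpace Y] :
    PolishSpace (X × Y) := inferInstance

instance (priority := 10000) pol_prod (X Y : Type) [TopologicalSpace X] [PolishSpace X] [TopologicalSpace Y]
    [PolishSpace Y] : PolishSpace (X × Y) := pol_prod_aux X Y

instance (priority := 10000) pol_baire : PolishSpace (ℕ → ℕ) := inferInstance

instance (priority := 10000) pol_nat : PolishSpace ℕ := inferInstance

theorem pol_fun (ι D : Type) [Countable ι] [TopologicalSpace D] [DiscreteTopology D] [Countable D] :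
    PolishSpace (ι → D) := { }

theorem cont_ev {X α : Type} [TopologicalSpace X] [TopologicalSpace α] {u : X → ℕ → α} {n : X → ℕ}
    (hu : Continuous u) (hn : Continuous n) : Continuous fun x => u x (n x) := by
  have h : Continuous fun z : (ℕ → α) × ℕ => z.1 z.2 :=
    continuous_prod_of_discrete_right.2 fun n => continuous_apply n
  exact h.comp (hu.prodMk hn)

namespace GoodClass

variable {Γ : (X : Type) → [TopologicalSpace X] → Set X → Prop} {X Y : Type} [TopologicalSpace X] [PolishSpace X]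
  [TopologicalSpace Y] [PolishSpace Y]

theorem not (h : GoodClass Γ) {Q : X → Prop} (hQ : Γ X {x | Q x}) : Γ X {x | ¬ Q x} := h.compl X _ hQ

theorem or (h : GoodClass Γ) {Q Q' : X → Prop} (hQ : Γ X {x | Q x}) (hQ' : Γ X {x | Q' x}) :
    Γ X {x | Q x ∨ Q' x} := h.union X _ _ hQ hQ'

omit [PolishSpace X] in
theorem congr {A B : Set X} (hA : Γ X A) (hAB : A = B) : Γ X B := hAB ▸ hA

theorem and (h : GoodClass Γ) {Q Q' : X → Prop} (hQ : Γ X {x | Q x}) (hQ' : Γ X {x | Q' x}) :
    Γ X {x | Q x ∧ Q' x} := by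
  refine congr (h.not (h.or (h.not hQ) (h.not hQ'))) (Set.ext fun x => ?_)
  show ¬ (¬ Q x ∨ ¬ Q' x) ↔ Q x ∧ Q' x
  tauto

theorem imp (h : GoodClass Γ) {Q Q' : X → Prop} (hQ : Γ X {x | Q x}) (hQ' : Γ X {x | Q' x}) :
    Γ X {x | Q x → Q' x} := by
  refine congr (h.or (h.not hQ) hQ') (Set.ext fun x => ?_)
  show ¬ Q x ∨ Q' x ↔ (Q x → Q' x)
  tauto

theorem ex (h : GoodClass Γ) (Y : Type) [TopologicalSpace Y] [PolishSpace Y] {Q : X → Y → Prop}
    (hQ : Γ (X × Y) {z | Q z.1 z.2}) : Γ X {x | ∃ y, Q x y} := by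
  refine congr (h.proj X Y _ hQ) (Set.ext fun x => ?_)
  constructor
  · rintro ⟨⟨x', y⟩, h1, rfl⟩
    exact ⟨y, h1⟩
  · rintro ⟨y, hy⟩
    exact ⟨(x, y), hy, rfl⟩

theorem all (h : GoodClass Γ) (Y : Type) [TopologicalSpace Y] [PolishSpace Y] {Q : X → Y → Prop}
    (hQ : Γ (X × Y) {z | Q z.1 z.2}) : Γ X {x | ∀ y, Q x y} := by
  refine congr (h.not (h.ex Y (Q := fun x y => ¬ Q x y) (h.not hQ))) (Set.ext fun x => ?_)
  show (¬ ∃ y, ¬ Q x y) ↔ ∀ y, Q x y
  rw [not_exists]
  exact forall_congr' fun y => not_not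

theorem cont (h : GoodClass Γ) {f : X → Y} (hf : Continuous f) {Q : Y → Prop} (hQ : Γ Y {y | Q y}) :
    Γ X {x | Q (f x)} := h.preimage X Y f _ hf hQ

theorem dis (h : GoodClass Γ) {D : Type} [TopologicalSpace D] [DiscreteTopology D] {f : X → D}
    (hf : Continuous f) (Q : D → Prop) : Γ X {x | Q (f x)} :=
  h.closed X _ ((isClosed_discrete {d | Q d}).preimage hf)

theorem analytic (h : GoodClass Γ) {A : Set X} (hA : AnalyticSet A) : Γ X A := by
  rw [AnalyticSet_def] at hA
  rcases hA with rfl | ⟨f, hf, rfl⟩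
  · exact h.closed X _ isClosed_empty
  · have h1 : Γ (X × (ℕ → ℕ)) {z | f z.2 = z.1} :=
      h.closed _ _ (isClosed_eq (hf.comp continuous_snd) continuous_fst)
    exact h.ex (ℕ → ℕ) (Q := fun x y => f y = x) h1

end GoodClass

end Pool.Agent.CGD
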