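import Pool.Agent.CGD.Defs

/-!
# CGD/Game: a winning strategy gives the dichotomy

Player I has a winning strategy: the answers of the strategy at all (countably many) positions.  Player II has a winning
strategy: at each position the set of all possible answers of the strategy has a complement outside `P`, and countably
many positions suffice.
-/

set_option autoImplicit false

namespace Pool.Agent.CGD

open Set Topology Filter
open Pool.Agent.ASG (ConvTo)

variable {R G : Type} [TopologicalSpace G]

theorem OneWins.dic [Countable R] {p : R → G} {g : G} {P : Set R → Prop} (h : OneWins p g P) : Dic p g P := by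
  obtain ⟨σ, hσ, hw⟩ := h
  left
  obtain ⟨e, he⟩ := exists_surjective_nat (List R)
  refine ⟨fun i => σ (e i), fun i => hσ _, fun O hO hg => ?_⟩
  by_contra hn
  push Not at hn
  have h1 : ∀ l, ∃ c ∈ σ l, p c ∉ O := by
    intro l
    obtain ⟨i, rfl⟩ := he l
    obtain ⟨c, hc, hc'⟩ := not_subset.1 (hn i)
    exact ⟨c, hc, hc'⟩
  choose f hf hf' using h1
  obtain ⟨c, hc⟩ := exists_run f
  have h2 := hw c fun k => by
    have h3 := hf ((List.range k).map c)
    rwa [← hc k] at h3
  obtain ⟨N, hN⟩ := eventually_atTop.1 (h2.eventually (hO.mem_nhds hg))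
  have h4 := hf' ((List.range N).map c)
  rw [← hc N] at h4
  exact h4 (hN N le_rfl)

theorem TwoWins.dic [Countable R] {p : R → G} {g : G} {P : Set R → Prop} (h : TwoWins p g P) : Dic p g P := by
  classical
  obtain ⟨τ, hτ⟩ := h
  right
  by_cases hP : ∃ V, P V
  swap
  · push Not at hP
    exact ⟨fun _ => univ, fun _ => hP _, fun C hC => ⟨0, by rw [inter_univ]; exact hC.1⟩⟩
  obtain ⟨V0, hV0⟩ := hP
  let M : List (Set R) → Set R := fun q => {c | ∃ V, P V ∧ τ (q ++ [V]) = c}
  have hM : ∀ q : List (Set R), (∀ V ∈ q, P V) → ¬ P (M q)ᶜ := by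
    intro q hq hPM
    have h1 : ∀ k, P ((q ++ [(M q)ᶜ]).getD k V0) := by
      intro k
      rcases lt_or_ge k (q ++ [(M q)ᶜ]).length with hk | hk
      · rw [List.getD_eq_getElem _ _ hk]
        have h2 := List.getElem_mem hk
        rcases List.mem_append.1 h2 with h3 | h3
        · exact hq _ h3
        · rw [List.mem_singleton.1 h3]
          exact hPM
      · rw [List.getD_eq_default _ _ hk]
        exact hV0
    have h2 : (List.range (q.length + 1)).map (fun k => (q ++ [(M q)ᶜ]).getD k V0) = q ++ [(M q)ᶜ] := by
      apply List.ext_getElem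
      · simp
      · intro i h3 h4
        rw [List.getElem_map, List.getElem_range, List.getD_eq_getElem _ _ h4]
    have h3 := (hτ _ h1).1 q.length
    rw [h2] at h3
    have h4 : (q ++ [(M q)ᶜ]).getD q.length V0 = (M q)ᶜ := by
      rw [List.getD_eq_getElem _ _ (by simp)]
      simp
    rw [h4] at h3
    exact h3 ⟨_, hPM, rfl⟩
  let W : List (Set R) → R → Set R := fun q c =>
    if h : ∃ V, P V ∧ τ (q ++ [V]) = c then h.choose else V0
  have hW : ∀ q c, P (W q c) := by
    intro q c
    by_cases h : ∃ V, P V ∧ τ (q ++ [V]) = c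
    · simp only [W, dif_pos h]
      exact h.choose_spec.1
    · simp only [W, dif_neg h]
      exact hV0
  have hW' : ∀ q c, c ∈ M q → τ (q ++ [W q c]) = c := by
    intro q c h
    have h' : ∃ V, P V ∧ τ (q ++ [V]) = c := h
    simp only [W, dif_pos h']
    exact h'.choose_spec.2
  let pos : List R → List (Set R) := fun s => s.foldr (fun c q => q ++ [W q c]) []
  have hpos : ∀ c s, pos (c :: s) = pos s ++ [W (pos s) c] := fun c s => rfl
  have hleg : ∀ s, ∀ V ∈ pos s, P V := by
    intro s
    induction s with
    | nil => intro V hV; simp [pos] at hV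
    | cons c s ih =>
      intro V hV
      rw [hpos] at hV
      rcases List.mem_append.1 hV with h3 | h3
      · exact ih V h3
      · rw [List.mem_singleton.1 h3]
        exact hW _ _
  obtain ⟨e, he⟩ := exists_surjective_nat (List R)
  refine ⟨fun i => (M (pos (e i)))ᶜ, fun i => hM _ (hleg _), fun C hC => ?_⟩
  by_contra hn
  push Not at hn
  have h1 : ∀ s : List R, ∃ c, c ∈ C ∧ c ∈ M (pos s) ∧ c ∉ s := by
    intro s
    obtain ⟨i, rfl⟩ := he s
    have h2 : (C ∩ (M (pos (e i)))ᶜ).Finite := not_infinite.1 (by simpa using hn i)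
    have h3 : ((C ∩ (M (pos (e i)))ᶜ) ∪ {c | c ∈ e i}).Finite := h2.union (List.finite_toSet _)
    obtain ⟨c, hc, hc'⟩ := (hC.1.sdiff h3).nonempty
    refine ⟨c, hc, ?_, fun h4 => hc' (Or.inr h4)⟩
    by_contra h4
    exact hc' (Or.inl ⟨hc, h4⟩)
  choose f hf hf1 hf2 using h1
  obtain ⟨c, hc⟩ := exists_run fun l => f l.reverse
  have h2 : ∀ k, ((List.range (k + 1)).map c).reverse = c k :: ((List.range k).map c).reverse := by
    intro k
    rw [List.range_succ, List.map_append, List.reverse_append]
    rfl
  have h3 : ∀ k, pos ((List.range k).map c).reverse =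
      (List.range k).map fun k => W (pos ((List.range k).map c).reverse) (c k) := by
    intro k
    induction k with
    | zero => rfl
    | succ k ih =>
      rw [h2, hpos, List.range_succ, List.map_append, List.map_singleton]
      rw [← ih]
  have h4 : ∀ k, τ ((List.range (k + 1)).map fun k => W (pos ((List.range k).map c).reverse) (c k)) = c k := by
    intro k
    rw [← h3, h2, hpos]
    refine hW' _ _ ?_
    have h5 := hf1 ((List.range k).map c).reverse
    rwa [← hc k] at h5
  have h5 := (hτ (fun k => W (pos ((List.range k).map c).reverse) (c k)) fun k => hW _ _).2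
  apply h5
  have h6 : (fun k => p (τ ((List.range (k + 1)).map fun k => W (pos ((List.range k).map c).reverse) (c k)))) =
      fun k => p (c k) := funext fun k => by rw [h4]
  rw [h6]
  refine convTo_tendsto hC (fun k => ?_) ?_
  · have h7 := hf ((List.range k).map c).reverse
    rwa [← hc k] at h7
  · have h7 : ∀ i k, i < k → c i ≠ c k := by
      intro i k hik h8
      have h9 := hf2 ((List.range k).map c).reverse
      rw [← hc k, ← h8] at h9
      exact h9 (List.mem_reverse.2 (List.mem_map.2 ⟨i, List.mem_range.2 hik, rfl⟩))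
    intro i k hik
    rcases lt_trichotomy i k with h8 | h8 | h8
    · exact (h7 i k h8 hik).elim
    · exact h8
    · exact (h7 k i h8 hik.symm).elim

end Pool.Agent.CGD
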