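import Pool.Agent.CGD.Defs

/-!
# CGD/Int: the game with integer moves

At stage `i` player I plays `x (2 i)`, player II plays `x (2 i + 1)`.  A phase starts at stage `0` and after each stage
`i` at which both moves are nonzero (a pick; the number picked is `i - st x i`, where `st x i` is the start of the phase).
In a phase player I plays the characteristic function of a set; if the phase does not end, this set must have `P`.
-/

set_option autoImplicit false

namespace Pool.Agent.CGD

open Set Topology Filter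
open Pool.Agent.ASG (ConvTo)

/-- `x` is a run in which the first player follows `σ` -/
def FollowsI (σ : List ℕ → ℕ) (x : ℕ → ℕ) : Prop := ∀ i, x (2 * i) = σ ((List.range (2 * i)).map x)

/-- `x` is a run in which the second player follows `τ` -/
def FollowsII (τ : List ℕ → ℕ) (x : ℕ → ℕ) : Prop := ∀ i, x (2 * i + 1) = τ ((List.range (2 * i + 1)).map x)

/-- the game on the natural numbers with payoff set `A` is determined -/
def Determined (A : Set (ℕ → ℕ)) : Prop :=
  (∃ σ, ∀ x, FollowsI σ x → x ∈ A) ∨ ∃ τ, ∀ x, FollowsII τ x → x ∉ A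

def Pk (x : ℕ → ℕ) (i : ℕ) : Prop := x (2 * i) ≠ 0 ∧ x (2 * i + 1) ≠ 0

instance (x : ℕ → ℕ) (i : ℕ) : Decidable (Pk x i) := inferInstanceAs (Decidable (_ ∧ _))

def st (x : ℕ → ℕ) : ℕ → ℕ
  | 0 => 0
  | i + 1 => if Pk x i then i + 1 else st x i

/-- the payoff set -/
def Pay {G : Type} [TopologicalSpace G] (p : ℕ → G) (g : G) (P : Set ℕ → Prop) : Set (ℕ → ℕ) :=
  {x | ((∀ n, ∃ i, n ≤ i ∧ Pk x i) ∧
      ∀ O : Set G, IsOpen O → g ∈ O → ∃ n, ∀ i, n ≤ i → Pk x i → p (i - st x i) ∈ O) ∨
    ∃ N, st x N = N ∧ (∀ i, N ≤ i → ¬ Pk x i) ∧ P {c | x (2 * (N + c)) ≠ 0}}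

theorem st_le (x : ℕ → ℕ) (i : ℕ) : st x i ≤ i := by
  induction i with
  | zero => exact le_rfl
  | succ i ih =>
    unfold st
    split_ifs
    · exact le_rfl
    · exact ih.trans (Nat.le_succ i)

theorem Pk_congr {x x' : ℕ → ℕ} {i : ℕ} (h : ∀ j, j < 2 * (i + 1) → x j = x' j) : Pk x i ↔ Pk x' i := by
  unfold Pk
  rw [h (2 * i) (by omega), h (2 * i + 1) (by omega)]

theorem st_congr {x x' : ℕ → ℕ} {i : ℕ} (h : ∀ j, j < 2 * i → x j = x' j) : st x i = st x' i := by
  induction i with
  | zero => rfl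
  | succ i ih =>
    have h1 := ih fun j hj => h j (by omega)
    have h2 := Pk_congr (i := i) h
    by_cases h3 : Pk x i
    · rw [st, st, if_pos h3, if_pos (h2.1 h3)]
    · rw [st, st, if_neg h3, if_neg (fun h4 => h3 (h2.2 h4)), h1]

theorem st_of_pk {x : ℕ → ℕ} {i : ℕ} (h : Pk x i) : st x (i + 1) = i + 1 := by rw [st, if_pos h]

theorem st_of_not {x : ℕ → ℕ} {i : ℕ} (h : ¬ Pk x i) : st x (i + 1) = st x i := by rw [st, if_neg h]

theorem st_st (x : ℕ → ℕ) (i : ℕ) : st x (st x i) = st x i := by
  induction i with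
  | zero => rfl
  | succ i ih =>
    by_cases h : Pk x i
    · rw [st_of_pk h, st_of_pk h]
    · rw [st_of_not h, ih]

/-- no picks between the start of the phase and the present stage -/
theorem not_pk {x : ℕ → ℕ} {i j : ℕ} (h1 : st x i ≤ j) (h2 : j < i) : ¬ Pk x j := by
  induction i with
  | zero => omega
  | succ i ih =>
    by_cases h : Pk x i
    · rw [st_of_pk h] at h1
      omega
    · rw [st_of_not h] at h1
      rcases Nat.lt_or_ge j i with h3 | h3
      · exact ih h1 h3
      · rw [show j = i by omega]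
        exact h

/-- a phase which starts later than `0` starts after a pick -/
theorem pk_of_st {x : ℕ → ℕ} {N : ℕ} (h : st x (N + 1) = N + 1) : Pk x N := by
  by_contra h1
  rw [st_of_not h1] at h
  have := st_le x N
  omega

/-- monotone: the start of the phase at a stage after a pick is later than the pick -/
theorem st_gt {x : ℕ → ℕ} {i j : ℕ} (h : Pk x i) (hij : i < j) : i < st x j := by
  by_contra h1
  exact not_pk (x := x) (i := j) (j := i) (by omega) hij h

/-- the last phase is unique -/
theorem last_unique {x : ℕ → ℕ} {N M : ℕ} (hN : st x N = N) (hM : st x M = M) (h1 : ∀ i, N ≤ i → ¬ Pk x i)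
    (h2 : ∀ i, M ≤ i → ¬ Pk x i) : N = M := by
  rcases lt_trichotomy N M with h | h | h
  · obtain ⟨M', rfl⟩ : ∃ M', M = M' + 1 := ⟨M - 1, by omega⟩
    exact (h1 M' (by omega) (pk_of_st hM)).elim
  · exact h
  · obtain ⟨N', rfl⟩ : ∃ N', N = N' + 1 := ⟨N - 1, by omega⟩
    exact (h2 N' (by omega) (pk_of_st hN)).elim

theorem exists_I (σ : List ℕ → ℕ) (y : ℕ → ℕ) : ∃ x, FollowsI σ x ∧ ∀ i, x (2 * i + 1) = y i := by
  obtain ⟨c, hc⟩ := exists_run fun l : List ℕ => if l.length % 2 = 0 then σ l else y (l.length / 2)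
  refine ⟨c, fun i => ?_, fun i => ?_⟩
  · have h := hc (2 * i)
    rw [List.length_map, List.length_range, if_pos (by omega)] at h
    exact h
  · have h := hc (2 * i + 1)
    rw [List.length_map, List.length_range, if_neg (by omega), show (2 * i + 1) / 2 = i by omega] at h
    exact h

theorem exists_II (τ : List ℕ → ℕ) (a : ℕ → ℕ) : ∃ x, FollowsII τ x ∧ ∀ i, x (2 * i) = a i := by
  obtain ⟨c, hc⟩ := exists_run fun l : List ℕ => if l.length % 2 = 0 then a (l.length / 2) else τ l
  refine ⟨c, fun i => ?_, fun i => ?_⟩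
  · have h := hc (2 * i + 1)
    rw [List.length_map, List.length_range, if_neg (by omega)] at h
    exact h
  · have h := hc (2 * i)
    rw [List.length_map, List.length_range, if_pos (by omega), show 2 * i / 2 = i by omega] at h
    exact h

private theorem Int_map {x x' : ℕ → ℕ} {j : ℕ} (h : ∀ k, k < j → x k = x' k) :
    (List.range j).map x = (List.range j).map x' :=
  List.map_congr_left fun k hk => h k (List.mem_range.1 hk)

theorem agree_I {σ : List ℕ → ℕ} {x x' : ℕ → ℕ} (h : FollowsI σ x) (h' : FollowsI σ x') {N : ℕ}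
    (hN : ∀ i, i < N → x (2 * i + 1) = x' (2 * i + 1)) : ∀ j, j < 2 * N + 1 → x j = x' j := by
  intro j
  induction j using Nat.strong_induction_on with
  | _ j ih =>
    intro hj
    rcases Nat.even_or_odd' j with ⟨i, rfl | rfl⟩
    · rw [h i, h' i, Int_map fun k hk => ih k hk (by omega)]
    · exact hN i (by omega)

theorem agree_II {τ : List ℕ → ℕ} {x x' : ℕ → ℕ} (h : FollowsII τ x) (h' : FollowsII τ x') {N : ℕ}
    (hN : ∀ i, i < N → x (2 * i) = x' (2 * i)) : ∀ j, j < 2 * N → x j = x' j := by
  intro j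
  induction j using Nat.strong_induction_on with
  | _ j ih =>
    intro hj
    rcases Nat.even_or_odd' j with ⟨i, rfl | rfl⟩
    · exact hN i (by omega)
    · rw [h i, h' i, Int_map fun k hk => ih k hk (by omega)]

end Pool.Agent.CGD
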