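import Pool.Agent.CGD.Main

/-!
# CGD/IntDet: the games with integer moves

In `k_ω` groups and in metrizable groups the games with integer moves of ideals on `ℕ` are determined.  Conversely, the
determinacy of these games suffices.
-/

set_option autoImplicit false

namespace Pool.Agent.CGD

open Set Topology Filter
open Pool.Agent.ASG (IsKOmega NotC CD Big ConvTo comp)

private theorem IntDet_agree (x : ℕ → ℕ) (n : ℕ) : ∀ j, j < n → ((List.range n).map x).getD j 0 = x j := by
  intro j hj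
  rw [List.getD_eq_getElem _ _ (by simpa using hj)]
  simp

private theorem IntDet_last {x : ℕ → ℕ} (h : ¬ ∀ n, ∃ i, n ≤ i ∧ Pk x i) :
    ∃ N, st x N = N ∧ ∀ i, N ≤ i → ¬ Pk x i := by
  push Not at h
  obtain ⟨n, hn⟩ := h
  refine ⟨st x n, st_st x n, fun i hi => ?_⟩
  rcases Nat.lt_or_ge i n with h1 | h1
  · exact not_pk hi h1
  · exact hn i h1

private theorem IntDet_st {x : ℕ → ℕ} {N : ℕ} (hN : st x N = N) (h : ∀ i, N ≤ i → ¬ Pk x i) (c : ℕ) :
    st x (N + c) = N := by
  induction c with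
  | zero => exact hN
  | succ c ih =>
    rw [← add_assoc, st_of_not (h _ (Nat.le_add_right _ _)), ih]

theorem int_det {G : Type} [TopologicalSpace G] (p : ℕ → G) (g : G) {P : Set ℕ → Prop}
    (hS : ∀ A B, A ⊆ B → P A → P B) (hU : ∀ A B, P (A ∪ B) → P A ∨ P B) (hE : ¬ P ∅)
    (h : ∃ W : ℕ → ℕ → Set G, (∀ n, Antitone (W n)) ∧
      (∀ n (O : Set G), IsOpen O → g ∈ O → ∃ m, W n m ⊆ O) ∧
      ∀ x : ℕ → G, Tendsto x atTop (𝓝 g) → ∃ n, ∀ m, ∀ᶠ k in atTop, x k ∈ W n m) :
    Determined (Pay p g P) := by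
  classical
  obtain ⟨W, hW1, hW2, hW3⟩ := h
  by_cases h1 : ∃ n, ∀ m, P (p ⁻¹' W n m)
  · left
    obtain ⟨n, hn⟩ := h1
    refine ⟨fun l => if p (l.length / 2 - st (fun k => l.getD k 0) (l.length / 2)) ∈
      W n (st (fun k => l.getD k 0) (l.length / 2)) then 1 else 0, fun x hx => ?_⟩
    have h2 : ∀ i, x (2 * i) ≠ 0 ↔ p (i - st x i) ∈ W n (st x i) := by
      intro i
      have h3 : st (fun k => ((List.range (2 * i)).map x).getD k 0) i = st x i :=
        st_congr (IntDet_agree x (2 * i))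
      have h4 := hx i
      rw [h4]
      simp only [List.length_map, List.length_range, Nat.mul_div_cancel_left i (by norm_num : 0 < 2), h3]
      split_ifs with h5
      · exact ⟨fun _ => h5, fun _ => one_ne_zero⟩
      · exact ⟨fun h6 => (h6 rfl).elim, fun h6 => (h5 h6).elim⟩
    by_cases h3 : ∀ n, ∃ i, n ≤ i ∧ Pk x i
    · refine Or.inl ⟨h3, fun O hO hg => ?_⟩
      obtain ⟨m, hm⟩ := hW2 n O hO hg
      obtain ⟨i0, hi0, hpk⟩ := h3 m
      refine ⟨i0 + 1, fun i hi hpi => hm (hW1 n ?_ ((h2 i).1 hpi.1))⟩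
      have := st_gt hpk (show i0 < i by omega)
      omega
    · obtain ⟨N, hN, hN'⟩ := IntDet_last h3
      refine Or.inr ⟨N, hN, hN', ?_⟩
      have h4 : {c | x (2 * (N + c)) ≠ 0} = p ⁻¹' W n N := by
        ext c
        show x (2 * (N + c)) ≠ 0 ↔ p c ∈ W n N
        rw [h2, IntDet_st hN hN', Nat.add_sub_cancel_left]
      rw [h4]
      exact hn N
  · right
    push Not at h1
    choose m hm using h1
    have h2 : ∀ k, ¬ P (⋃ i ∈ Finset.range k, p ⁻¹' W i (m i)) := by
      intro k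
      induction k with
      | zero => simpa using hE
      | succ k ih =>
        rw [Finset.range_add_one, Finset.set_biUnion_insert]
        intro h3
        rcases hU _ _ h3 with h4 | h4
        · exact hm k h4
        · exact ih h4
    refine ⟨fun l => if ∀ j, j ≤ st (fun k => l.getD k 0) (l.length / 2) →
      p (l.length / 2 - st (fun k => l.getD k 0) (l.length / 2)) ∉ W j (m j) then 1 else 0, fun x hx => ?_⟩
    have h3 : ∀ i, x (2 * i + 1) ≠ 0 ↔ ∀ j, j ≤ st x i → p (i - st x i) ∉ W j (m j) := by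
      intro i
      have h3 : st (fun k => ((List.range (2 * i + 1)).map x).getD k 0) i = st x i :=
        st_congr fun j hj => IntDet_agree x (2 * i + 1) j (by omega)
      have h4 := hx i
      rw [h4]
      simp only [List.length_map, List.length_range, show (2 * i + 1) / 2 = i by omega, h3]
      split_ifs with h5
      · exact ⟨fun _ => h5, fun _ => one_ne_zero⟩
      · exact ⟨fun h6 => (h6 rfl).elim, fun h6 => (h5 h6).elim⟩
    rintro (⟨h4, h5⟩ | ⟨N, hN, hN', hP⟩)
    · obtain ⟨φ, hφ, hφ'⟩ := extraction_of_frequently_atTop (frequently_atTop.2 fun a => h4 a)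
      have h6 : Tendsto (fun k => p (φ k - st x (φ k))) atTop (𝓝 g) := by
        rw [tendsto_nhds]
        intro O hO hg
        obtain ⟨n, hn⟩ := h5 O hO hg
        filter_upwards [eventually_ge_atTop n] with k hk
        exact hn _ (hk.trans (hφ.id_le k)) (hφ' k)
      obtain ⟨n, hn⟩ := hW3 _ h6
      obtain ⟨k, hk, hk'⟩ := ((hn (m n)).and (eventually_ge_atTop (n + 1))).exists
      obtain ⟨k, rfl⟩ : ∃ k', k = k' + 1 := ⟨k - 1, by omega⟩
      have h7 := st_gt (hφ' k) (hφ (Nat.lt_succ_self k))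
      have h8 := hφ.id_le k
      have h9 : k ≤ φ k := h8
      exact (h3 _).1 (hφ' (k + 1)).2 n (by
        have h10 : φ k < st x (φ (k + 1)) := h7
        omega) hk
    · refine h2 (N + 1) (hS _ _ (fun c hc => ?_) hP)
      have h6 : x (2 * (N + c) + 1) = 0 := by
        by_contra h6
        exact hN' _ (Nat.le_add_right N c) ⟨hc, h6⟩
      have h7 : ¬ ∀ j, j ≤ st x (N + c) → p (N + c - st x (N + c)) ∉ W j (m j) := fun h7 => (h3 _).2 h7 h6
      rw [IntDet_st hN hN', Nat.add_sub_cancel_left] at h7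
      push Not at h7
      obtain ⟨j, hj, hj'⟩ := h7
      exact mem_biUnion (Finset.mem_coe.2 (Finset.mem_range.2 (by omega))) hj'

theorem int_ideal {G : Type} [TopologicalSpace G] [T2Space G] [Countable G]
    (h : IsKOmega G ∨ TopologicalSpace.MetrizableSpace G) (p : ℕ → G) (g : G) {I : Set (Set ℕ)} (hI : IsIdeal I) :
    Determined (Pay p g fun V => V ∉ I) := by
  refine int_det p g (fun A B hAB hA hB => hA (hI.sub A B hAB hB)) (fun A B hAB => ?_) (fun h1 => h1 hI.empty)
    (conv_sys h g)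
  by_contra h1
  push Not at h1
  exact hAB (hI.union A B h1.1 h1.2)

theorem int_dic {G R : Type} [TopologicalSpace G] (ε : ℕ ≃ R) (q : R → G) (g : G) {P : Set R → Prop}
    (h : Determined (Pay (q ∘ ε) g fun V => P (ε '' V))) : Dic q g P := by
  rcases h with h1 | h1
  · obtain ⟨V, hV, hO⟩ := one_dic h1
    left
    refine ⟨fun i => ε '' V i, hV, fun O hO' hg => ?_⟩
    obtain ⟨i, hi⟩ := hO O hO' hg
    exact ⟨i, by rintro _ ⟨n, hn, rfl⟩; exact hi hn⟩
  · obtain ⟨V, hV, hC⟩ := two_dic h1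
    right
    refine ⟨fun i => ε '' V i, hV, fun C hC' => ?_⟩
    have e1 : ∀ A : Set R, A.Infinite → (ε ⁻¹' A).Infinite := by
      intro A hA
      rw [← ε.image_symm_eq_preimage]
      exact hA.image ε.symm.injective.injOn
    obtain ⟨i, hi⟩ := hC (ε ⁻¹' C) ⟨e1 _ hC'.1, fun O hO hg => by
      have h2 := (hC'.2 O hO hg).preimage ε.injective.injOn
      exact h2⟩
    refine ⟨i, ?_⟩
    have h2 : ε '' (ε ⁻¹' C ∩ V i) ⊆ C ∩ ε '' V i := by
      rintro _ ⟨n, ⟨hn1, hn2⟩, rfl⟩
      exact ⟨hn1, n, hn2, rfl⟩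
    exact (hi.image ε.injective.injOn).mono h2

theorem pull_ideal {R : Type} (ε : ℕ ≃ R) {I : Set (Set R)} (hI : IsIdeal I) : IsIdeal {V : Set ℕ | ε '' V ∈ I} where
  empty := by
    show ε '' ∅ ∈ I
    rw [image_empty]
    exact hI.empty
  sub := fun A B hAB hB => hI.sub _ _ (image_mono hAB) hB
  union := fun A B hA hB => by
    show ε '' (A ∪ B) ∈ I
    rw [image_union]
    exact hI.union _ _ hA hB

theorem of_int {G : Type} [Group G] [TopologicalSpace G] [IsTopologicalGroup G] [T2Space G] [Countable G]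
    [SequentialSpace G]
    (h : ∀ I : Set (Set ℕ), IsIdeal I → ∀ (p : ℕ → G) (g : G), Determined (Pay p g fun V => V ∉ I)) :
    IsKOmega G ∨ TopologicalSpace.MetrizableSpace G := by
  rcases finite_or_infinite G with hf | hf
  · right
    infer_instance
  · obtain ⟨hD⟩ := nonempty_denumerable G
    have E : ℕ ≃ G := (Denumerable.eqv G).symm
    exact of_games (int_dic E _ _ (h _ (pull_ideal E (cl_ideal G)) _ _))
      (int_dic E _ _ (h _ (pull_ideal E (nd_ideal G)) _ _))
      fun q g => int_dic (Denumerable.eqv (ℕ × ℕ × ℕ)).symm _ _ (h _ (pull_ideal _ fin3_ideal) _ _)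

end Pool.Agent.CGD
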