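import Pool.Agent.CGD.Int

/-!
# CGD/RunA: a winning strategy of player I in the integer game

The sets played by the strategy against a player II who passes from some stage on: countably many sets with `P`.  If none
of them is small, player II picks in each phase a number outside.
-/

set_option autoImplicit false

namespace Pool.Agent.CGD

open Set Topology Filter

variable {G : Type} [TopologicalSpace G]

private theorem RunA_getD (y : ℕ → ℕ) {i k : ℕ} (h : k < i) : ((List.range i).map y).getD k 0 = y k := by
  rw [List.getD_eq_getElem _ _ (by simpa using h)]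
  simp

private theorem RunA_take (y : ℕ → ℕ) {i s : ℕ} (h : s ≤ i) :
    ((List.range i).map y).take s = (List.range s).map y := by
  rw [← List.map_take, List.take_range, min_eq_left h]

theorem one_dic {p : ℕ → G} {g : G} {P : Set ℕ → Prop} (h : ∃ σ, ∀ x, FollowsI σ x → x ∈ Pay p g P) :
    ∃ V : ℕ → Set ℕ, (∀ i, P (V i)) ∧ ∀ O : Set G, IsOpen O → g ∈ O → ∃ i, V i ⊆ p ⁻¹' O := by
  classical
  obtain ⟨σ, hσ⟩ := h
  choose X hX hX' using fun t : List ℕ => exists_I σ fun i => t.getD i 0
  have hP : ∀ t : List ℕ, st (X t) t.length = t.length → P {c | X t (2 * (t.length + c)) ≠ 0} := by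
    intro t ht
    have h0 : ∀ i, t.length ≤ i → ¬ Pk (X t) i := by
      intro i hi h1
      refine h1.2 ?_
      rw [hX', List.getD_eq_default _ _ hi]
    rcases hσ (X t) (hX t) with ⟨h1, -⟩ | ⟨N, h1, h2, h3⟩
    · obtain ⟨i, hi, hi'⟩ := h1 t.length
      exact (h0 i hi hi').elim
    · have h4 : N = t.length := last_unique h1 ht h2 h0
      rw [h4] at h3
      exact h3
  obtain ⟨e, he⟩ := exists_surjective_nat (List ℕ)
  refine ⟨fun i => if st (X (e i)) (e i).length = (e i).length then {c | X (e i) (2 * ((e i).length + c)) ≠ 0}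
    else {c | X [] (2 * (([] : List ℕ).length + c)) ≠ 0}, fun i => ?_, fun O hO hg => ?_⟩
  · dsimp only
    split_ifs with h1
    · exact hP _ h1
    · exact hP [] rfl
  by_contra hn
  push Not at hn
  have h1 : ∀ t : List ℕ, st (X t) t.length = t.length → ∃ c, X t (2 * (t.length + c)) ≠ 0 ∧ p c ∉ O := by
    intro t ht
    obtain ⟨i, rfl⟩ := he t
    have h2 := hn i
    rw [if_pos ht] at h2
    obtain ⟨c, hc, hc'⟩ := not_subset.1 h2
    exact ⟨c, hc, hc'⟩
  choose! c hc hc' using h1
  obtain ⟨y, hy⟩ := exists_run fun l : List ℕ =>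
    if st (X l) l.length + c (l.take (st (X l) l.length)) = l.length then 1 else 0
  obtain ⟨x, hx, hx'⟩ := exists_I σ y
  have hagr : ∀ i, ∀ j, j < 2 * i + 1 → X ((List.range i).map y) j = x j := by
    intro i
    refine agree_I (hX _) hx fun k hk => ?_
    rw [hX', hx', RunA_getD y hk]
  have hst : ∀ i, st (X ((List.range i).map y)) i = st x i := fun i => st_congr fun j hj => hagr i j (by omega)
  have hlen : ∀ i, ((List.range i).map y).length = i := fun i => by simp
  have hy' : ∀ i, y i = if st x i + c ((List.range (st x i)).map y) = i then 1 else 0 := by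
    intro i
    have h2 := hy i
    rw [hlen, hst, RunA_take y (st_le x i)] at h2
    exact h2
  have hcl : ∀ N, st x N = N → ∀ j, N ≤ j → j ≤ N + c ((List.range N).map y) →
      st x j = N ∧ ∀ i, N ≤ i → i < j → y i = 0 := by
    intro N hN j hj
    induction j, hj using Nat.le_induction with
    | base => exact fun _ => ⟨hN, fun i h2 h3 => by omega⟩
    | succ j hj ih =>
      intro h2
      obtain ⟨h3, h4⟩ := ih (by omega)
      have h5 : y j = 0 := by
        rw [hy', h3, if_neg (by omega)]
      refine ⟨?_, fun i h6 h7 => ?_⟩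
      · rw [st_of_not, h3]
        intro h6
        exact h6.2 (by rw [hx', h5])
      · rcases Nat.lt_or_ge i j with h8 | h8
        · exact h4 i h6 h8
        · rw [show i = j by omega]
          exact h5
  have hpk : ∀ N, st x N = N → Pk x (N + c ((List.range N).map y)) ∧
      st x (N + c ((List.range N).map y)) = N ∧ p (c ((List.range N).map y)) ∉ O := by
    intro N hN
    obtain ⟨h2, h3⟩ := hcl N hN _ (Nat.le_add_right _ _) le_rfl
    have h4 : st (X ((List.range N).map y)) ((List.range N).map y).length = ((List.range N).map y).length := by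
      rw [hlen, hst, hN]
    refine ⟨⟨?_, ?_⟩, h2, hc' _ h4⟩
    · have h5 := hc _ h4
      rw [hlen] at h5
      have h6 : ∀ j, j < 2 * (N + c ((List.range N).map y)) + 1 → X ((List.range N).map y) j = x j := by
        refine agree_I (hX _) hx fun k hk => ?_
        rw [hX', hx']
        rcases Nat.lt_or_ge k N with h7 | h7
        · exact RunA_getD y h7
        · rw [h3 k h7 hk, List.getD_eq_default _ _ (by rw [hlen]; exact h7)]
      rw [← h6 _ (by omega)]
      exact h5
    · rw [hx', hy', h2, if_pos rfl]
      exact one_ne_zero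
  rcases hσ x hx with ⟨-, h2⟩ | ⟨N, h2, h3, -⟩
  · obtain ⟨n, hn'⟩ := h2 O hO hg
    have h3 : ∀ n, ∃ N, n ≤ N ∧ st x N = N := by
      intro n
      induction n with
      | zero => exact ⟨0, le_rfl, rfl⟩
      | succ n ih =>
        obtain ⟨N, hN1, hN2⟩ := ih
        exact ⟨N + c ((List.range N).map y) + 1, by omega, st_of_pk (hpk N hN2).1⟩
    obtain ⟨N, hN1, hN2⟩ := h3 n
    obtain ⟨h4, h5, h6⟩ := hpk N hN2
    have h7 := hn' _ (by omega) h4
    rw [h5, Nat.add_sub_cancel_left] at h7
    exact h6 h7
  · exact h3 _ (Nat.le_add_right _ _) (hpk N h2).1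

end Pool.Agent.CGD
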