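import Pool.Agent.CGD.Int

/-!
# CGD/RunB: a winning strategy of player II in the integer game

At the start of a phase player I can play any set with `P`; the set of all numbers which the strategy may pick has a
complement outside `P`.  If these countably many complements do not catch a set converging to `g`, then player I can
arrange that the picks are distinct elements of this set.
-/

set_option autoImplicit false

namespace Pool.Agent.CGD

open Set Topology Filter
open Pool.Agent.ASG (ConvTo)

variable {G : Type} [TopologicalSpace G]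

private theorem RunB_getD (y : ℕ → ℕ) {i k : ℕ} (h : k < i) : ((List.range i).map y).getD k 0 = y k := by
  rw [List.getD_eq_getElem _ _ (by simpa using h)]
  simp

private theorem RunB_take (y : ℕ → ℕ) {i s : ℕ} (h : s ≤ i) :
    ((List.range i).map y).take s = (List.range s).map y := by
  rw [← List.map_take, List.take_range, min_eq_left h]

theorem two_dic {p : ℕ → G} {g : G} {P : Set ℕ → Prop} (h : ∃ τ, ∀ x, FollowsII τ x → x ∉ Pay p g P) :
    ∃ V : ℕ → Set ℕ, (∀ i, ¬ P (V i)) ∧ ∀ C : Set ℕ, ConvTo p C g → ∃ i, (C ∩ V i).Infinite := by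
  classical
  obtain ⟨τ, hτ⟩ := h
  choose Y hY hY' using fun (t : List ℕ) (V : Set ℕ) => exists_II τ fun i =>
    if i < t.length then t.getD i 0 else if i - t.length ∈ V then 1 else 0
  have hst0 : ∀ t V, st (Y t V) t.length = st (Y t ∅) t.length := by
    intro t V
    refine st_congr (agree_II (hY t V) (hY t ∅) fun i hi => ?_)
    rw [hY', hY', if_pos hi, if_pos hi]
  have hmem : ∀ t V c, Y t V (2 * (t.length + c)) ≠ 0 ↔ c ∈ V := by
    intro t V c
    rw [hY', if_neg (by omega), Nat.add_sub_cancel_left]
    by_cases h1 : c ∈ V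
    · rw [if_pos h1]
      exact ⟨fun _ => h1, fun _ => one_ne_zero⟩
    · rw [if_neg h1]
      exact ⟨fun h2 => (h2 rfl).elim, fun h2 => (h1 h2).elim⟩
  have hex : ∀ t V, st (Y t ∅) t.length = t.length → P V → ∃ c, Pk (Y t V) (t.length + c) := by
    intro t V ht hV
    by_contra h1
    push Not at h1
    refine hτ _ (hY t V) (Or.inr ⟨t.length, by rw [hst0, ht], fun i hi => ?_, ?_⟩)
    · have h2 := h1 (i - t.length)
      rwa [Nat.add_sub_cancel' hi] at h2
    · rw [show {c | Y t V (2 * (t.length + c)) ≠ 0} = V from Set.ext fun c => hmem t V c]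
      exact hV
  let M : List ℕ → Set ℕ := fun t => {c | ∃ V, P V ∧ Pk (Y t V) (t.length + c) ∧
    ∀ i, t.length ≤ i → i < t.length + c → ¬ Pk (Y t V) i}
  have hM : ∀ t, st (Y t ∅) t.length = t.length → ¬ P (M t)ᶜ := by
    intro t ht h1
    have h2 := hex t _ ht h1
    have h3 : Nat.find h2 ∈ M t := by
      refine ⟨(M t)ᶜ, h1, Nat.find_spec h2, fun i hi hi' h4 => ?_⟩
      refine Nat.find_min h2 (m := i - t.length) (by omega) ?_
      rwa [Nat.add_sub_cancel' hi]
    exact (hmem t _ _).1 (Nat.find_spec h2).1 h3
  obtain ⟨e, he⟩ := exists_surjective_nat (List ℕ)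
  refine ⟨fun i => if st (Y (e i) ∅) (e i).length = (e i).length then (M (e i))ᶜ else (M [])ᶜ, fun i => ?_,
    fun C hC => ?_⟩
  · dsimp only
    split_ifs with h1
    · exact hM _ h1
    · exact hM [] rfl
  by_contra hn
  push Not at hn
  have h1 : ∀ t : List ℕ, st (Y t ∅) t.length = t.length → ∃ c V, c ∈ C ∧ t.length ≤ c ∧
      Pk (Y t V) (t.length + c) ∧ ∀ i, t.length ≤ i → i < t.length + c → ¬ Pk (Y t V) i := by
    intro t ht
    obtain ⟨i, rfl⟩ := he t
    have h2 := hn i
    rw [if_pos ht] at h2
    have h3 : (C ∩ (M (e i))ᶜ).Finite := not_infinite.1 (by simpa using h2)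
    obtain ⟨c, hc, hc'⟩ := (hC.1.sdiff h3).exists_gt (e i).length
    have h4 : c ∈ M (e i) := by
      by_contra h4
      exact hc.2 ⟨hc.1, h4⟩
    obtain ⟨V, -, hV1, hV2⟩ := h4
    exact ⟨c, V, hc.1, hc'.le, hV1, hV2⟩
  choose! c V hc hc1 hc2 hc3 using h1
  obtain ⟨a, ha⟩ := exists_run fun l : List ℕ =>
    if l.length - st (Y l ∅) l.length ∈ V (l.take (st (Y l ∅) l.length)) then 1 else 0
  obtain ⟨x, hx, hx'⟩ := exists_II τ a
  have hlen : ∀ i, ((List.range i).map a).length = i := fun i => by simp
  have hagr : ∀ i, ∀ j, j < 2 * i → Y ((List.range i).map a) ∅ j = x j := by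
    intro i
    refine agree_II (hY _ _) hx fun k hk => ?_
    rw [hY', hx', hlen, if_pos hk, RunB_getD a hk]
  have hst : ∀ i, st (Y ((List.range i).map a) ∅) i = st x i := fun i => st_congr (hagr i)
  have ha' : ∀ i, a i = if i - st x i ∈ V ((List.range (st x i)).map a) then 1 else 0 := by
    intro i
    have h2 := ha i
    rw [hlen, hst, RunB_take a (st_le x i)] at h2
    exact h2
  have hagr' : ∀ N j, (∀ i, i < j → a i = if i < N then ((List.range N).map a).getD i 0 else
      if i - N ∈ V ((List.range N).map a) then 1 else 0) → ∀ k, k < 2 * j →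
      Y ((List.range N).map a) (V ((List.range N).map a)) k = x k := by
    intro N j h2
    refine agree_II (hY _ _) hx fun k hk => ?_
    rw [hY', hx', hlen, h2 k hk]
  have hleg : ∀ N, st x N = N → st (Y ((List.range N).map a) ∅) ((List.range N).map a).length =
      ((List.range N).map a).length := by
    intro N hN
    rw [hlen, hst, hN]
  have hcl : ∀ N, st x N = N → ∀ j, N ≤ j → j ≤ N + c ((List.range N).map a) → st x j = N ∧
      ∀ i, i < j → a i = if i < N then ((List.range N).map a).getD i 0 else
        if i - N ∈ V ((List.range N).map a) then 1 else 0 := by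
    intro N hN j hj
    induction j, hj using Nat.le_induction with
    | base => exact fun _ => ⟨hN, fun i hi => by rw [if_pos hi, RunB_getD a hi]⟩
    | succ j hj ih =>
      intro h2
      obtain ⟨h3, h4⟩ := ih (by omega)
      have h5 : ∀ i, i < j + 1 → a i = if i < N then ((List.range N).map a).getD i 0 else
          if i - N ∈ V ((List.range N).map a) then 1 else 0 := by
        intro i hi
        rcases Nat.lt_or_ge i j with h6 | h6
        · exact h4 i h6
        · rw [show i = j by omega, ha', h3, if_neg (by omega : ¬ j < N)]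
      refine ⟨?_, h5⟩
      rw [st_of_not, h3]
      intro h6
      have h7 := (Pk_congr (i := j) (hagr' N (j + 1) h5)).2 h6
      refine hc3 _ (hleg N hN) j ?_ ?_ h7
      · rw [hlen]
        exact hj
      · rw [hlen]
        omega
  have hpk : ∀ N, st x N = N → Pk x (N + c ((List.range N).map a)) ∧
      ∀ j, N ≤ j → j < N + c ((List.range N).map a) → ¬ Pk x j := by
    intro N hN
    obtain ⟨h2, h3⟩ := hcl N hN _ (Nat.le_add_right _ _) le_rfl
    refine ⟨?_, fun j hj hj' h4 => ?_⟩
    · have h5 : ∀ i, i < N + c ((List.range N).map a) + 1 → a i = if i < N then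
          ((List.range N).map a).getD i 0 else if i - N ∈ V ((List.range N).map a) then 1 else 0 := by
        intro i hi
        rcases Nat.lt_or_ge i (N + c ((List.range N).map a)) with h6 | h6
        · exact h3 i h6
        · rw [show i = N + c ((List.range N).map a) by omega, ha', h2,
            if_neg (by omega : ¬ N + c ((List.range N).map a) < N)]
      have h6 := hc2 _ (hleg N hN)
      rw [hlen] at h6
      exact (Pk_congr (hagr' N _ h5)).1 h6
    · exact not_pk (x := x) (i := N + c ((List.range N).map a)) (by rw [h2]; exact hj) hj' h4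
  have hall : ∀ i, Pk x i → i - st x i ∈ C ∧ st x i ≤ i - st x i := by
    intro i hi
    have hN := st_st x i
    obtain ⟨h2, h3⟩ := hpk _ hN
    have h4 : i = st x i + c ((List.range (st x i)).map a) := by
      rcases lt_trichotomy i (st x i + c ((List.range (st x i)).map a)) with h5 | h5 | h5
      · exact (h3 i (st_le x i) h5 hi).elim
      · exact h5
      · exact (not_pk (Nat.le_add_right _ _) h5 h2).elim
    have h5 : i - st x i = c ((List.range (st x i)).map a) := by omega
    have h6 := hc1 _ (hleg _ hN)
    rw [hlen] at h6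
    rw [h5]
    exact ⟨hc _ (hleg _ hN), h6⟩
  refine hτ x hx (Or.inl ⟨fun n => ?_, fun O hO hg => ?_⟩)
  · have h3 : ∃ N, n ≤ N ∧ st x N = N := by
      induction n with
      | zero => exact ⟨0, le_rfl, rfl⟩
      | succ n ih =>
        obtain ⟨N, hN1, hN2⟩ := ih
        exact ⟨N + c ((List.range N).map a) + 1, by omega, st_of_pk (hpk N hN2).1⟩
    obtain ⟨N, hN1, hN2⟩ := h3
    exact ⟨_, hN1.trans (Nat.le_add_right _ _), (hpk N hN2).1⟩
  · have h2 : {i | Pk x i ∧ p (i - st x i) ∉ O}.Finite := by
      refine Set.Finite.of_finite_image ((hC.2 O hO hg).subset ?_) (f := fun i => i - st x i) ?_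
      · rintro _ ⟨i, ⟨h3, h4⟩, rfl⟩
        exact ⟨(hall i h3).1, h4⟩
      · have h5 : ∀ i j, Pk x i → Pk x j → i < j → i - st x i ≠ j - st x j := by
          intro i j hi hj hij h6
          have h7 := st_gt hi hij
          have h8 := (hall j hj).2
          omega
        intro i hi j hj hij
        rcases lt_trichotomy i j with h6 | h6 | h6
        · exact (h5 i j hi.1 hj.1 h6 hij).elim
        · exact h6
        · exact (h5 j i hj.1 hi.1 h6 hij.symm).elim
    obtain ⟨n, hn'⟩ := h2.bddAbove
    refine ⟨n + 1, fun i hi h3 => ?_⟩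
    by_contra h4
    have h5 := hn' (show i ∈ {i | Pk x i ∧ p (i - st x i) ∉ O} from ⟨h3, h4⟩)
    omega

end Pool.Agent.CGD
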