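import Pool.Agent.CGD.Pos
import Pool.Agent.CGD.RunA
import Pool.Agent.CGD.RunB
import Pool.Agent.CGD.Game
import Pool.Agent.CGD.Conv
import Pool.Agent.CGD.Fwd
import Pool.Agent.CSD.Main

/-!
# CGD/Main: determined games and countable sequential groups
-/

set_option autoImplicit false

namespace Pool.Agent.CGD

open Set Topology Filter MeasureTheory
open Pool.Agent.ASG (IsKOmega NotC CD Big ConvTo comp)
open Pool.Agent.CSD (An Null Det)

/-! ### games of ideals -/

/-- `I` is an ideal of subsets of `R` -/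
structure IsIdeal {R : Type} (I : Set (Set R)) : Prop where
  empty : ∅ ∈ I
  sub : ∀ A B, A ⊆ B → B ∈ I → A ∈ I
  union : ∀ A B, A ∈ I → B ∈ I → A ∪ B ∈ I

theorem det_ideal {R G : Type} [TopologicalSpace G] [T2Space G] [Countable G] [Nonempty R]
    (h : IsKOmega G ∨ TopologicalSpace.MetrizableSpace G) (p : R → G) (g : G) {I : Set (Set R)} (hI : IsIdeal I) :
    OneWins p g (fun V => V ∉ I) ∨ TwoWins p g (fun V => V ∉ I) := by
  refine det_of_sys p g (fun A B hAB hA hB => hA (hI.sub A B hAB hB)) (fun A B hAB => ?_) (fun h1 => h1 hI.empty)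
    (conv_sys h g)
  by_contra h1
  push Not at h1
  exact hAB (hI.union A B h1.1 h1.2)

theorem cl_ideal (G : Type) [TopologicalSpace G] : IsIdeal {V : Set G | IsCompact (closure V)} where
  empty := by simp
  sub := fun A B hAB hB => hB.of_isClosed_subset isClosed_closure (closure_mono hAB)
  union := fun A B hA hB => by
    show IsCompact (closure (A ∪ B))
    rw [closure_union]
    exact IsCompact.union hA hB

theorem nd_ideal (G : Type) [TopologicalSpace G] : IsIdeal {V : Set G | IsNowhereDense V} where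
  empty := isNowhereDense_empty
  sub := fun A B hAB hB => IsNowhereDense.mono hAB hB
  union := fun A B hA hB => by
    show interior (closure (A ∪ B)) = ∅
    rw [closure_union, interior_union_isClosed_of_interior_empty isClosed_closure hB]
    exact hA

theorem fin3_ideal : IsIdeal {V : Set (ℕ × ℕ × ℕ) | ¬ Big V} where
  empty := by
    show ¬ Big ∅
    simp [Big]
  sub := fun A B hAB hB hA => hB (hA.mono fun n hn => hn.mono fun m hm => hm.mono fun j hj => hAB hj)
  union := fun A B hA hB h => by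
    rcases frequently_or_distrib.1 (h.mono (q := fun n => (∃ᶠ m in atTop, ∃ᶠ j in atTop, (n, m, j) ∈ A) ∨
      ∃ᶠ m in atTop, ∃ᶠ j in atTop, (n, m, j) ∈ B) fun n hn => frequently_or_distrib.1
        (hn.mono fun m hm => frequently_or_distrib.1 (hm.mono fun j hj => hj))) with h1 | h1
    · exact hA h1
    · exact hB h1

/-- the game for `p`, `g` and the ideal `I` is determined -/
def GameDet {R G : Type} [TopologicalSpace G] (p : R → G) (g : G) (I : Set (Set R)) : Prop :=
  OneWins p g (fun V => V ∉ I) ∨ TwoWins p g (fun V => V ∉ I)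

theorem GameDet.dic {R G : Type} [TopologicalSpace G] [Countable R] {p : R → G} {g : G} {I : Set (Set R)}
    (h : GameDet p g I) : Dic p g (fun V => V ∉ I) := h.elim OneWins.dic TwoWins.dic

theorem of_games {G : Type} [Group G] [TopologicalSpace G] [IsTopologicalGroup G] [T2Space G] [Countable G]
    [SequentialSpace G] (h1 : Dic (id : G → G) 1 fun V => V ∉ {V : Set G | IsCompact (closure V)})
    (h2 : Dic (id : G → G) 1 fun V => V ∉ {V : Set G | IsNowhereDense V})
    (h3 : ∀ (q : ℕ × ℕ × ℕ → G) (g : G), Dic q g fun V => V ∉ {V : Set (ℕ × ℕ × ℕ) | ¬ Big V}) :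
    IsKOmega G ∨ TopologicalSpace.MetrizableSpace G := by
  refine fwd (P := fun V => V ∉ {V : Set G | IsCompact (closure V)}) (fun V hV => ?_) (fun V hV => not_not.1 hV)
    h1 ?_ fun q g => ?_
  · by_contra h4
    exact hV (comp h4)
  · rw [show (fun V : Set G => (interior (closure V)).Nonempty) = fun V => V ∉ {V : Set G | IsNowhereDense V} from
      funext fun V => propext nonempty_iff_ne_empty]
    exact h2
  · rw [show Big = fun V => V ∉ {V : Set (ℕ × ℕ × ℕ) | ¬ Big V} from funext fun V => propext not_not.symm]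
    exact h3 q g

theorem dic_all {R G : Type} [TopologicalSpace G] [T2Space G] [Countable G]
    (h : IsKOmega G ∨ TopologicalSpace.MetrizableSpace G) (p : R → G) (g : G) (P : Set R → Prop) : Dic p g P := by
  have h1 : Pool.Agent.ASG.IsAnalytic G := by
    rcases h with h | h
    · exact Pool.Agent.ASG.an_kom h
    · exact Pool.Agent.ASG.an_met
  obtain ⟨f, hf, hr⟩ := h1
  exact Pool.Agent.ASG.dich hf hr p g P

theorem main_a (G : Type) [Group G] [TopologicalSpace G] [IsTopologicalGroup G] [T2Space G] [Countable G]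
    [SequentialSpace G] :
    [IsKOmega G ∨ TopologicalSpace.MetrizableSpace G,
      ∀ (R : Type) [Countable R] [Nonempty R] (I : Set (Set R)), IsIdeal I → ∀ (p : R → G) (g : G), GameDet p g I,
      GameDet (id : G → G) 1 {V | IsCompact (closure V)} ∧ GameDet (id : G → G) 1 {V | IsNowhereDense V} ∧
        ∀ (p : ℕ × ℕ × ℕ → G) (g : G), GameDet p g {V | ¬ Big V},
      ∀ (R : Type) [Countable R] (P : Set R → Prop) (p : R → G) (g : G), Dic p g P].TFAE := by
  tfae_have 1 → 2 := fun h R _ _ I hI p g => det_ideal h p g hI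
  tfae_have 2 → 3 := fun h => ⟨h G _ (cl_ideal G) _ _, h G _ (nd_ideal G) _ _, fun p g => h _ _ fin3_ideal p g⟩
  tfae_have 3 → 1 := fun h => of_games h.1.dic h.2.1.dic fun q g => (h.2.2 q g).dic
  tfae_have 1 → 4 := fun h R _ P p g => dic_all h p g P
  tfae_have 4 → 1 := fun h => of_games (h G _ _ _) (h G _ _ _) fun q g => h _ _ q g
  tfae_finish

/-! ### classes of sets with determined games -/

section

variable {Γ : (X : Type) → [TopologicalSpace X] → Set X → Prop}

theorem dic_of_det (h : GoodClass Γ) (hdet : ∀ A : Set (ℕ → ℕ), Γ (ℕ → ℕ) A → Determined A) {G : Type}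
    [TopologicalSpace G] (E : ℕ ≃ G) (hT : Γ (ℕ → ℕ) (TT E)) {R : Type} (ε : ℕ ≃ R) (q : R → G) (g : G)
    {P : Set R → Prop} (hP : Γ (ℕ → ℕ) {f | P (ε '' {n | f n ≠ 0})}) : Dic q g P := by
  rcases hdet _ (pay_mem h E hT (q ∘ ε) g (P := fun V => P (ε '' V)) hP) with h1 | h1
  · obtain ⟨V, hV, hO⟩ := one_dic h1
    left
    refine ⟨fun i => ε '' V i, hV, fun O hO' hg => ?_⟩
    obtain ⟨i, hi⟩ := hO O hO' hg
    exact ⟨i, by rintro _ ⟨n, hn, rfl⟩; exact hi hn⟩
  · obtain ⟨V, hV, hC⟩ := two_dic h1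
    right
    refine ⟨fun i => ε '' V i, hV, fun C hC' => ?_⟩
    have e1 : ∀ A : Set R, A.Infinite → (ε ⁻¹' A).Infinite := by
      intro A hA
      rw [← ε.image_symm_eq_preimage]
      exact hA.image ε.symm.injective.injOn
    obtain ⟨i, hi⟩ := hC (ε ⁻¹' C) ⟨e1 _ hC'.1, fun O hO hg => by
      have h2 := (hC'.2 O hO hg).preimage ε.injective.injOn
      exact h2⟩
    refine ⟨i, ?_⟩
    have h2 : ε '' (ε ⁻¹' C ∩ V i) ⊆ C ∩ ε '' V i := by
      rintro _ ⟨n, ⟨hn1, hn2⟩, rfl⟩
      exact ⟨hn1, n, hn2, rfl⟩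
    exact (hi.image ε.injective.injOn).mono h2

theorem TT_mem (h : GoodClass Γ) {G : Type} [TopologicalSpace G] [Countable G] (E : ℕ ≃ G)
    (hT : Γ (G → Bool) {φ | IsOpen {x | φ x = true}}) : Γ (ℕ → ℕ) (TT E) := by
  have := pol_fun G Bool
  have h1 : Continuous fun f : ℕ → ℕ => fun x : G => decide (f (E.symm x) ≠ 0) :=
    continuous_pi fun x => (continuous_of_discreteTopology (f := fun n : ℕ => decide (n ≠ 0))).comp
      (continuous_apply _)
  refine GoodClass.congr (h.preimage _ _ _ _ h1 hT) (Set.ext fun f => ?_)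
  show IsOpen {x | decide (f (E.symm x) ≠ 0) = true} ↔ IsOpen {x | f (E.symm x) ≠ 0}
  simp only [decide_eq_true_eq]

theorem mem_TT (h : GoodClass Γ) {G : Type} [TopologicalSpace G] [Countable G] (E : ℕ ≃ G)
    (hT : Γ (ℕ → ℕ) (TT E)) : Γ (G → Bool) {φ | IsOpen {x | φ x = true}} := by
  have := pol_fun G Bool
  have h1 : Continuous fun φ : G → Bool => fun n => if φ (E n) = true then 1 else 0 :=
    continuous_pi fun n => (continuous_of_discreteTopology (f := fun b : Bool => if b = true then 1 else 0)).comp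
      (continuous_apply _)
  refine GoodClass.congr (h.preimage _ _ _ _ h1 hT) (Set.ext fun φ => ?_)
  show IsOpen {x | (if φ (E (E.symm x)) = true then 1 else 0) ≠ 0} ↔ IsOpen {x | φ x = true}
  simp

/-- (3) ⇒ (4) -/
theorem of_top (h : GoodClass Γ) (hdet : ∀ A : Set (ℕ → ℕ), Γ (ℕ → ℕ) A → Determined A) {G : Type}
    [Group G] [TopologicalSpace G] [IsTopologicalGroup G] [T2Space G] [Countable G] [SequentialSpace G]
    (E : ℕ ≃ G) (hT : Γ (ℕ → ℕ) (TT E)) : IsKOmega G ∨ TopologicalSpace.MetrizableSpace G := by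
  refine fwd (P := NotC) (fun V hV => hV) (fun V hV => comp hV) ?_ ?_ fun q g => ?_
  · exact dic_of_det h hdet E hT E id 1 (notC_mem h E hT)
  · exact dic_of_det h hdet E hT E id 1 (dense_mem h E hT)
  · exact dic_of_det h hdet E hT (Denumerable.eqv (ℕ × ℕ × ℕ)).symm q g (big_mem h _)

/-- (1) ⇒ (3) -/
theorem top_of_det (h : GoodClass Γ) {G : Type} [Group G] [TopologicalSpace G] [IsTopologicalGroup G] [Countable G]
    (E : ℕ ≃ G) {𝒜 : Set (ℕ → G)} (hA : Γ (ℕ → ℕ) {a | (fun n => E (a n)) ∈ 𝒜}) (hd : Det 𝒜) :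
    Γ (ℕ → ℕ) (TT E) := by
  have h1 : TT E = {f | ∀ a : ℕ → ℕ, (fun n => E (a n)) ∈ 𝒜 → ∀ k, f k ≠ 0 → ∃ n, ∀ m, n ≤ m →
      f (E.symm (E k * E (a m))) ≠ 0} := by
    ext f
    constructor
    · intro hf a ha k hk
      have h2 : Tendsto (fun m => E k * E (a m)) atTop (𝓝 (E k)) := by
        have h5 : Tendsto (fun m => E k * E (a m)) atTop (𝓝 (E k * 1)) := (hd.1 _ ha).const_mul (E k)
        rwa [mul_one] at h5
      exact eventually_atTop.1 (h2.eventually (IsOpen.mem_nhds hf (by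
        show f (E.symm (E k)) ≠ 0
        rwa [E.symm_apply_apply])))
    · intro hf
      refine hd.2 _ fun x hx a ha => ?_
      have h2 := hf (fun n => E.symm (a n)) (by simpa using ha) (E.symm x) hx
      obtain ⟨n, hn⟩ := h2
      refine eventually_atTop.2 ⟨n, fun m hm => ?_⟩
      have h3 := hn m hm
      rwa [E.apply_symm_apply, E.apply_symm_apply] at h3
  rw [h1]
  refine h.all (ℕ → ℕ) (h.imp ?_ (h.all ℕ (h.imp ?_ (h.ex ℕ (h.all ℕ ?_)))))
  · exact h.cont (f := fun z : (ℕ → ℕ) × (ℕ → ℕ) => z.2) continuous_snd hA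
  · exact h.dis (f := fun z : ((ℕ → ℕ) × (ℕ → ℕ)) × ℕ => z.1.1 z.2)
      (cont_ev (continuous_fst.comp continuous_fst) continuous_snd) (fun d => d ≠ 0)
  · -- z : ((((f, a), k), n), m)
    have c1 : Continuous fun z : ((((ℕ → ℕ) × (ℕ → ℕ)) × ℕ) × ℕ) × ℕ => z.1.1.1.1 := by fun_prop
    have c2 : Continuous fun z : ((((ℕ → ℕ) × (ℕ → ℕ)) × ℕ) × ℕ) × ℕ => z.1.1.1.2 := by fun_prop
    have c3 : Continuous fun z : ((((ℕ → ℕ) × (ℕ → ℕ)) × ℕ) × ℕ) × ℕ => z.1.1.2 := by fun_prop
    have c4 : Continuous fun z : ((((ℕ → ℕ) × (ℕ → ℕ)) × ℕ) × ℕ) × ℕ => (z.1.2, z.2) := by fun_prop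
    have c5 := cont_ev c2 continuous_snd
    have c6 := (continuous_of_discreteTopology (f := fun d : ℕ × ℕ => E.symm (E d.1 * E d.2))).comp (c3.prodMk c5)
    exact h.dis (c4.prodMk (cont_ev c1 c6)) (fun d => d.1.1 ≤ d.1.2 → d.2 ≠ 0)

/-- `𝒜` is in the class as a set of sequences of elements of the discrete set `G` -/
def InG (Γ : (X : Type) → [TopologicalSpace X] → Set X → Prop) {G : Type} (𝒜 : Set (ℕ → G)) : Prop :=
  @Γ (ℕ → G) (@Pi.topologicalSpace ℕ (fun _ => G) (fun _ => ⊥)) 𝒜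

theorem InG.code (h : GoodClass Γ) {G : Type} [Countable G] (E : ℕ ≃ G) {𝒜 : Set (ℕ → G)} (hA : InG Γ 𝒜) :
    Γ (ℕ → ℕ) {a | (fun n => E (a n)) ∈ 𝒜} := by
  let _ : TopologicalSpace G := ⊥
  have _ : DiscreteTopology G := ⟨rfl⟩
  have := pol_fun ℕ G
  have hc : Continuous fun a : ℕ → ℕ => fun n => E (a n) :=
    continuous_pi fun n => continuous_of_discreteTopology.comp (continuous_apply n)
  exact h.preimage (ℕ → ℕ) (ℕ → G) _ 𝒜 hc hA

theorem InG.of_an (h : GoodClass Γ) {G : Type} [Countable G] {𝒜 : Set (ℕ → G)} (hA : An 𝒜) : InG Γ 𝒜 := by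
  let _ : TopologicalSpace G := ⊥
  have _ : DiscreteTopology G := ⟨rfl⟩
  have := pol_fun ℕ G
  exact h.analytic hA

theorem main_b (h : GoodClass Γ) (hdet : ∀ A : Set (ℕ → ℕ), Γ (ℕ → ℕ) A → Determined A) (G : Type)
    [Group G] [TopologicalSpace G] [IsTopologicalGroup G] [T2Space G] [Countable G] :
    [(∃ 𝒜 : Set (ℕ → G), InG Γ 𝒜 ∧ Det 𝒜), SequentialSpace G ∧ InG Γ (Null G),
      SequentialSpace G ∧ Γ (G → Bool) {φ : G → Bool | IsOpen {x | φ x = true}},
      IsKOmega G ∨ TopologicalSpace.MetrizableSpace G].TFAE := by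
  have hm := Pool.Agent.CSD.main G
  tfae_have 1 → 4 := by
    rintro ⟨𝒜, ha, hd⟩
    rcases finite_or_infinite G with hf | hf
    · right
      infer_instance
    · obtain ⟨hD⟩ := nonempty_denumerable G
      have E : ℕ ≃ G := (Denumerable.eqv G).symm
      have hs := Pool.Agent.CSD.seq_of_det hd.1 hd.2
      exact of_top h hdet E (top_of_det h E (ha.code h E) hd)
  tfae_have 4 → 2 := fun h4 => by
    obtain ⟨h5, h6⟩ := (hm.out 3 1).1 h4
    exact ⟨h5, InG.of_an h h6⟩
  tfae_have 2 → 1 := by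
    rintro ⟨h1, h2⟩
    exact ⟨_, h2, Pool.Agent.CSD.det_null⟩
  tfae_have 4 → 3 := fun h4 => by
    have := pol_fun G Bool
    obtain ⟨h5, h6⟩ := (hm.out 3 2).1 h4
    exact ⟨h5, h.analytic h6⟩
  tfae_have 3 → 4 := by
    rintro ⟨h1, h2⟩
    rcases finite_or_infinite G with hf | hf
    · right
      infer_instance
    · obtain ⟨hD⟩ := nonempty_denumerable G
      have E : ℕ ≃ G := (Denumerable.eqv G).symm
      exact of_top h hdet E (TT_mem h E h2)
  tfae_finish

end

end Pool.Agent.CGD
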