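import Pool.Agent.CGD.Gam
import Pool.Agent.CGD.Int

/-!
# CGD/Pay: the payoff sets are in the class
-/

set_option autoImplicit false

namespace Pool.Agent.CGD

open Set Topology Filter

/-- the codes of the open sets -/
def TT {G : Type} [TopologicalSpace G] (E : ℕ ≃ G) : Set (ℕ → ℕ) := {f | IsOpen {x | f (E.symm x) ≠ 0}}

theorem st_cont : Continuous fun z : (ℕ → ℕ) × ℕ => st z.1 z.2 := by
  refine continuous_prod_of_discrete_right.2 fun n => ?_
  induction n with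
  | zero => exact continuous_const
  | succ n ih =>
    have h1 : Continuous fun x : ℕ → ℕ => (x (2 * n), x (2 * n + 1), st x n) :=
      (continuous_apply _).prodMk ((continuous_apply _).prodMk ih)
    have h2 : Continuous fun d : ℕ × ℕ × ℕ => if d.1 ≠ 0 ∧ d.2.1 ≠ 0 then n + 1 else d.2.2 :=
      continuous_of_discreteTopology
    exact h2.comp h1

theorem pay_mem {Γ : (X : Type) → [TopologicalSpace X] → Set X → Prop} (h : GoodClass Γ) {G : Type}
    [TopologicalSpace G] (E : ℕ ≃ G) (hT : Γ (ℕ → ℕ) (TT E)) (p : ℕ → G) (g : G) {P : Set ℕ → Prop}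
    (hP : Γ (ℕ → ℕ) {f | P {c | f c ≠ 0}}) : Γ (ℕ → ℕ) (Pay p g P) := by
  have h1 : Pay p g P = {x | ((∀ n, ∃ i, n ≤ i ∧ Pk x i) ∧
      ∀ f : ℕ → ℕ, f ∈ TT E → f (E.symm g) ≠ 0 → ∃ n, ∀ i, n ≤ i → Pk x i →
        f (E.symm (p (i - st x i))) ≠ 0) ∨
      ∃ N, st x N = N ∧ (∀ i, N ≤ i → ¬ Pk x i) ∧ P {c | x (2 * (N + c)) ≠ 0}} := by
    ext x
    refine or_congr (and_congr Iff.rfl ⟨fun h2 f hf hg => h2 _ hf hg, fun h2 O hO hg => ?_⟩) Iff.rfl
    classical
    have h3 : ∀ y : G, (if E (E.symm y) ∈ O then 1 else 0) ≠ 0 ↔ y ∈ O := by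
      intro y
      rw [E.apply_symm_apply]
      split_ifs with h4 <;> simp [h4]
    obtain ⟨n, hn⟩ := h2 (fun k => if E k ∈ O then 1 else 0)
      (by
        show IsOpen {y : G | (if E (E.symm y) ∈ O then 1 else 0) ≠ 0}
        rwa [show {y : G | (if E (E.symm y) ∈ O then 1 else 0) ≠ 0} = O from Set.ext h3])
      ((h3 g).2 hg)
    exact ⟨n, fun i hi hpk => (h3 _).1 (hn i hi hpk)⟩
  rw [h1]
  refine h.or (h.and ?_ ?_) ?_
  · refine h.all ℕ (h.ex ℕ ?_)
    exact h.dis (f := fun z : ((ℕ → ℕ) × ℕ) × ℕ => (z.1.2, z.2, z.1.1 (2 * z.2), z.1.1 (2 * z.2 + 1)))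
      ((continuous_snd.comp continuous_fst).prodMk (continuous_snd.prodMk
        ((cont_ev (continuous_fst.comp continuous_fst) (continuous_of_discreteTopology.comp continuous_snd)).prodMk
          (cont_ev (continuous_fst.comp continuous_fst)
            ((continuous_of_discreteTopology (f := fun i : ℕ => 2 * i + 1)).comp continuous_snd)))))
      (fun d => d.1 ≤ d.2.1 ∧ d.2.2.1 ≠ 0 ∧ d.2.2.2 ≠ 0)
  · refine h.all (ℕ → ℕ) (h.imp ?_ (h.imp ?_ (h.ex ℕ (h.all ℕ ?_))))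
    · exact h.cont (f := fun z : (ℕ → ℕ) × (ℕ → ℕ) => z.2) continuous_snd hT
    · exact h.dis (f := fun z : (ℕ → ℕ) × (ℕ → ℕ) => z.2 (E.symm g))
        ((continuous_apply _).comp continuous_snd) (fun d => d ≠ 0)
    · -- z : (((x, f), n), i)
      have c1 : Continuous fun z : (((ℕ → ℕ) × (ℕ → ℕ)) × ℕ) × ℕ => z.1.1.1 :=
        continuous_fst.comp (continuous_fst.comp continuous_fst)
      have c2 : Continuous fun z : (((ℕ → ℕ) × (ℕ → ℕ)) × ℕ) × ℕ => z.1.1.2 :=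
        continuous_snd.comp (continuous_fst.comp continuous_fst)
      have c3 : Continuous fun z : (((ℕ → ℕ) × (ℕ → ℕ)) × ℕ) × ℕ => z.1.2 := continuous_snd.comp continuous_fst
      have c4 : Continuous fun z : (((ℕ → ℕ) × (ℕ → ℕ)) × ℕ) × ℕ => z.2 := continuous_snd
      have c5 : Continuous fun z : (((ℕ → ℕ) × (ℕ → ℕ)) × ℕ) × ℕ => st z.1.1.1 z.2 :=
        st_cont.comp (c1.prodMk c4)
      have c6 : Continuous fun z : (((ℕ → ℕ) × (ℕ → ℕ)) × ℕ) × ℕ => E.symm (p (z.2 - st z.1.1.1 z.2)) :=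
        (continuous_of_discreteTopology (f := fun d : ℕ × ℕ => E.symm (p (d.1 - d.2)))).comp (c4.prodMk c5)
      have c7 := cont_ev c2 c6
      have c8 : Continuous fun z : (((ℕ → ℕ) × (ℕ → ℕ)) × ℕ) × ℕ => z.1.1.1 (2 * z.2) :=
        cont_ev c1 (continuous_of_discreteTopology.comp c4)
      have c9 : Continuous fun z : (((ℕ → ℕ) × (ℕ → ℕ)) × ℕ) × ℕ => z.1.1.1 (2 * z.2 + 1) :=
        cont_ev c1 ((continuous_of_discreteTopology (f := fun i : ℕ => 2 * i + 1)).comp c4)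
      exact h.dis (c3.prodMk (c4.prodMk (c8.prodMk (c9.prodMk c7))))
        (fun d => d.1 ≤ d.2.1 → (d.2.2.1 ≠ 0 ∧ d.2.2.2.1 ≠ 0) → d.2.2.2.2 ≠ 0)
  · refine h.ex ℕ (h.and ?_ (h.and (h.all ℕ ?_) ?_))
    · exact h.dis (st_cont.prodMk continuous_snd) (fun d : ℕ × ℕ => d.1 = d.2)
    · exact h.dis (f := fun z : ((ℕ → ℕ) × ℕ) × ℕ => (z.1.2, z.2, z.1.1 (2 * z.2), z.1.1 (2 * z.2 + 1)))
        ((continuous_snd.comp continuous_fst).prodMk (continuous_snd.prodMk
          ((cont_ev (continuous_fst.comp continuous_fst) (continuous_of_discreteTopology.comp continuous_snd)).prodMk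
            (cont_ev (continuous_fst.comp continuous_fst)
              ((continuous_of_discreteTopology (f := fun i : ℕ => 2 * i + 1)).comp continuous_snd)))))
        (fun d => d.1 ≤ d.2.1 → ¬ (d.2.2.1 ≠ 0 ∧ d.2.2.2 ≠ 0))
    · refine h.cont (f := fun z : (ℕ → ℕ) × ℕ => fun c => z.1 (2 * (z.2 + c))) ?_ hP
      exact continuous_pi fun c => cont_ev continuous_fst
        ((continuous_of_discreteTopology (f := fun N : ℕ => 2 * (N + c))).comp continuous_snd)

end Pool.Agent.CGD
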