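import Pool.Agent.CGD.Pay
import Pool.Agent.ASG.Defs

/-!
# CGD/Pos: the three properties of sets are in the class
-/

set_option autoImplicit false

namespace Pool.Agent.CGD

open Set Topology Filter
open Pool.Agent.ASG (NotC CD Big)

variable {Γ : (X : Type) → [TopologicalSpace X] → Set X → Prop} {G : Type} [TopologicalSpace G]

omit [TopologicalSpace G] in
/-- the code of a set -/
theorem exists_code (E : ℕ ≃ G) (U : Set G) : ∃ f : ℕ → ℕ, ∀ n, f n ≠ 0 ↔ E n ∈ U := by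
  classical
  refine ⟨fun n => if E n ∈ U then 1 else 0, fun n => ?_⟩
  dsimp only
  split_ifs with h <;> simp [h]

theorem TT_iff (E : ℕ ≃ G) {U : Set G} {f : ℕ → ℕ} (h : ∀ n, f n ≠ 0 ↔ E n ∈ U) : f ∈ TT E ↔ IsOpen U := by
  have h1 : {x | f (E.symm x) ≠ 0} = U := by
    ext x
    rw [mem_ofPred_eq, h, E.apply_symm_apply]
  show IsOpen {x | f (E.symm x) ≠ 0} ↔ IsOpen U
  rw [h1]

omit [TopologicalSpace G] in
private theorem Pos_img (E : ℕ ≃ G) {V : Set ℕ} {n : ℕ} : E n ∈ E '' V ↔ n ∈ V :=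
  E.injective.mem_set_image

theorem notC_iff (E : ℕ ≃ G) (f : ℕ → ℕ) : NotC (E '' {n | f n ≠ 0}) ↔
    ∃ d : ℕ → ℕ, (∀ n, d n ≠ 0 → f n ≠ 0) ∧ (∀ n, ∃ m, n ≤ m ∧ d m ≠ 0) ∧
      ∀ n, ∃ u : ℕ → ℕ, u ∈ TT E ∧ u n ≠ 0 ∧ ∃ k, ∀ m, k ≤ m → u m ≠ 0 → ¬ d m ≠ 0 := by
  constructor
  · rintro ⟨D, hD, hi, hc⟩
    obtain ⟨d, hd⟩ := exists_code E D
    refine ⟨d, fun n hn => ?_, fun n => ?_, fun n => ?_⟩
    · exact (Pos_img E).1 (hD ((hd n).1 hn))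
    · have h1 : (E ⁻¹' D).Infinite := by
        rw [← E.image_symm_eq_preimage]
        exact hi.image E.symm.injective.injOn
      obtain ⟨m, hm, hm'⟩ := h1.exists_gt n
      exact ⟨m, hm'.le, (hd m).2 hm⟩
    · obtain ⟨U, hU, hf⟩ := hc (E n)
      obtain ⟨O, hO, hOo, hn⟩ := mem_nhds_iff.1 hU
      obtain ⟨u, hu⟩ := exists_code E O
      have h1 : (E ⁻¹' (U ∩ D)).Finite := hf.preimage E.injective.injOn
      obtain ⟨k, hk⟩ := h1.bddAbove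
      refine ⟨u, (TT_iff E hu).2 hOo, (hu n).2 hn, k + 1, fun m hm hum hdm => ?_⟩
      have h2 := hk (show m ∈ E ⁻¹' (U ∩ D) from ⟨hO ((hu m).1 hum), (hd m).1 hdm⟩)
      omega
  · rintro ⟨d, h1, h2, h3⟩
    refine ⟨E '' {n | d n ≠ 0}, image_mono fun n hn => h1 n hn, ?_, fun x => ?_⟩
    · refine Set.Infinite.image E.injective.injOn ?_
      intro hf
      obtain ⟨k, hk⟩ := hf.bddAbove
      obtain ⟨m, hm, hm'⟩ := h2 (k + 1)
      have := hk (show m ∈ {n | d n ≠ 0} from hm')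
      omega
    · obtain ⟨n, rfl⟩ := E.surjective x
      obtain ⟨u, hu, hun, k, hk⟩ := h3 n
      refine ⟨{x | u (E.symm x) ≠ 0}, IsOpen.mem_nhds hu ?_, ?_⟩
      · show u (E.symm (E n)) ≠ 0
        rwa [E.symm_apply_apply]
      · refine ((finite_lt_nat k).image E).subset ?_
        rintro x ⟨hx, m, hm, rfl⟩
        refine ⟨m, ?_, rfl⟩
        by_contra h4
        have h5 : u m ≠ 0 := by
          have h6 : u (E.symm (E m)) ≠ 0 := hx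
          rwa [E.symm_apply_apply] at h6
        exact hk m (not_lt.1 h4) h5 hm

theorem dense_iff (E : ℕ ≃ G) (f : ℕ → ℕ) : (interior (closure (E '' {n | f n ≠ 0}))).Nonempty ↔
    ∃ u : ℕ → ℕ, u ∈ TT E ∧ (∃ n, u n ≠ 0) ∧ ∀ w : ℕ → ℕ, w ∈ TT E → (∃ n, u n ≠ 0 ∧ w n ≠ 0) →
      ∃ n, w n ≠ 0 ∧ f n ≠ 0 := by
  constructor
  · rintro ⟨x, hx⟩
    obtain ⟨u, hu⟩ := exists_code E (interior (closure (E '' {n | f n ≠ 0})))
    refine ⟨u, (TT_iff E hu).2 isOpen_interior, ⟨E.symm x, ?_⟩, ?_⟩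
    · rw [hu, E.apply_symm_apply]
      exact hx
    · rintro w hw ⟨n, hn, hn'⟩
      have h1 : E n ∈ closure (E '' {n | f n ≠ 0}) := interior_subset ((hu n).1 hn)
      obtain ⟨y, hy, m, hm, rfl⟩ := mem_closure_iff.1 h1 _ hw (by
        show w (E.symm (E n)) ≠ 0
        rwa [E.symm_apply_apply])
      refine ⟨m, ?_, hm⟩
      have h6 : w (E.symm (E m)) ≠ 0 := hy
      rwa [E.symm_apply_apply] at h6
  · rintro ⟨u, hu, ⟨n, hn⟩, h1⟩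
    refine ⟨E n, ?_⟩
    refine mem_interior.2 ⟨{x | u (E.symm x) ≠ 0}, ?_, hu, ?_⟩
    · intro x hx
      rw [mem_closure_iff]
      intro O hO hxO
      obtain ⟨w, hw⟩ := exists_code E O
      obtain ⟨m, hm, hm'⟩ := h1 w ((TT_iff E hw).2 hO) ⟨E.symm x, hx, by rwa [hw, E.apply_symm_apply]⟩
      exact ⟨E m, (hw m).1 hm, m, hm', rfl⟩
    · show u (E.symm (E n)) ≠ 0
      rwa [E.symm_apply_apply]

theorem big_iff (ε : ℕ ≃ ℕ × ℕ × ℕ) (f : ℕ → ℕ) : Big (ε '' {n | f n ≠ 0}) ↔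
    ∀ a, ∃ n, a ≤ n ∧ ∀ b, ∃ m, b ≤ m ∧ ∀ c, ∃ j, c ≤ j ∧ f (ε.symm (n, m, j)) ≠ 0 := by
  unfold Big
  simp only [frequently_atTop, ε.image_eq_preimage_symm]
  rfl

theorem notC_mem (h : GoodClass Γ) (E : ℕ ≃ G) (hT : Γ (ℕ → ℕ) (TT E)) :
    Γ (ℕ → ℕ) {f | NotC (E '' {n | f n ≠ 0})} := by
  rw [show {f : ℕ → ℕ | NotC (E '' {n | f n ≠ 0})} = _ from Set.ext (notC_iff E)]
  refine h.ex (ℕ → ℕ) (h.and (h.all ℕ ?_) (h.and (h.all ℕ (h.ex ℕ ?_)) (h.all ℕ (h.ex (ℕ → ℕ)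
    (h.and ?_ (h.and ?_ (h.ex ℕ (h.all ℕ ?_))))))))
  · exact h.dis (f := fun z : ((ℕ → ℕ) × (ℕ → ℕ)) × ℕ => (z.1.2 z.2, z.1.1 z.2))
      ((cont_ev (continuous_snd.comp continuous_fst) continuous_snd).prodMk
        (cont_ev (continuous_fst.comp continuous_fst) continuous_snd)) (fun d => d.1 ≠ 0 → d.2 ≠ 0)
  · exact h.dis (f := fun z : (((ℕ → ℕ) × (ℕ → ℕ)) × ℕ) × ℕ => (z.1.2, z.2, z.1.1.2 z.2))
      ((continuous_snd.comp continuous_fst).prodMk (continuous_snd.prodMk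
        (cont_ev (continuous_snd.comp (continuous_fst.comp continuous_fst)) continuous_snd)))
      (fun d => d.1 ≤ d.2.1 ∧ d.2.2 ≠ 0)
  · exact h.cont (f := fun z : (((ℕ → ℕ) × (ℕ → ℕ)) × ℕ) × (ℕ → ℕ) => z.2) continuous_snd hT
  · exact h.dis (f := fun z : (((ℕ → ℕ) × (ℕ → ℕ)) × ℕ) × (ℕ → ℕ) => z.2 z.1.2)
      (cont_ev continuous_snd (continuous_snd.comp continuous_fst)) (fun d => d ≠ 0)
  · -- z : (((((f, d), n), u), k), m)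
    have c1 : Continuous fun z : (((((ℕ → ℕ) × (ℕ → ℕ)) × ℕ) × (ℕ → ℕ)) × ℕ) × ℕ => z.1.2 :=
      continuous_snd.comp continuous_fst
    have c2 : Continuous fun z : (((((ℕ → ℕ) × (ℕ → ℕ)) × ℕ) × (ℕ → ℕ)) × ℕ) × ℕ => z.1.1.2 :=
      continuous_snd.comp (continuous_fst.comp continuous_fst)
    have c3 : Continuous fun z : (((((ℕ → ℕ) × (ℕ → ℕ)) × ℕ) × (ℕ → ℕ)) × ℕ) × ℕ => z.1.1.1.1.2 :=
      continuous_snd.comp (continuous_fst.comp (continuous_fst.comp (continuous_fst.comp continuous_fst)))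
    exact h.dis (c1.prodMk (continuous_snd.prodMk ((cont_ev c2 continuous_snd).prodMk
      (cont_ev c3 continuous_snd)))) (fun d => d.1 ≤ d.2.1 → d.2.2.1 ≠ 0 → ¬ d.2.2.2 ≠ 0)

theorem dense_mem (h : GoodClass Γ) (E : ℕ ≃ G) (hT : Γ (ℕ → ℕ) (TT E)) :
    Γ (ℕ → ℕ) {f | (interior (closure (E '' {n | f n ≠ 0}))).Nonempty} := by
  rw [show {f : ℕ → ℕ | (interior (closure (E '' {n | f n ≠ 0}))).Nonempty} = _ from Set.ext (dense_iff E)]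
  refine h.ex (ℕ → ℕ) (h.and ?_ (h.and (h.ex ℕ ?_) (h.all (ℕ → ℕ) (h.imp ?_ (h.imp (h.ex ℕ ?_) (h.ex ℕ ?_))))))
  · exact h.cont (f := fun z : (ℕ → ℕ) × (ℕ → ℕ) => z.2) continuous_snd hT
  · exact h.dis (f := fun z : ((ℕ → ℕ) × (ℕ → ℕ)) × ℕ => z.1.2 z.2)
      (cont_ev (continuous_snd.comp continuous_fst) continuous_snd) (fun d => d ≠ 0)
  · exact h.cont (f := fun z : ((ℕ → ℕ) × (ℕ → ℕ)) × (ℕ → ℕ) => z.2) continuous_snd hT
  · exact h.dis (f := fun z : (((ℕ → ℕ) × (ℕ → ℕ)) × (ℕ → ℕ)) × ℕ => (z.1.1.2 z.2, z.1.2 z.2))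
      ((cont_ev (continuous_snd.comp (continuous_fst.comp continuous_fst)) continuous_snd).prodMk
        (cont_ev (continuous_snd.comp continuous_fst) continuous_snd)) (fun d => d.1 ≠ 0 ∧ d.2 ≠ 0)
  · exact h.dis (f := fun z : (((ℕ → ℕ) × (ℕ → ℕ)) × (ℕ → ℕ)) × ℕ => (z.1.2 z.2, z.1.1.1 z.2))
      ((cont_ev (continuous_snd.comp continuous_fst) continuous_snd).prodMk
        (cont_ev (continuous_fst.comp (continuous_fst.comp continuous_fst)) continuous_snd))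
      (fun d => d.1 ≠ 0 ∧ d.2 ≠ 0)

theorem big_mem (h : GoodClass Γ) (ε : ℕ ≃ ℕ × ℕ × ℕ) :
    Γ (ℕ → ℕ) {f | Big (ε '' {n | f n ≠ 0})} := by
  rw [show {f : ℕ → ℕ | Big (ε '' {n | f n ≠ 0})} = _ from Set.ext (big_iff ε)]
  refine h.all ℕ (h.ex ℕ (h.and ?_ (h.all ℕ (h.ex ℕ (h.and ?_ (h.all ℕ (h.ex ℕ ?_)))))))
  · exact h.dis (f := fun z : ((ℕ → ℕ) × ℕ) × ℕ => (z.1.2, z.2))
      ((continuous_snd.comp continuous_fst).prodMk continuous_snd) (fun d => d.1 ≤ d.2)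
  · exact h.dis (f := fun z : ((((ℕ → ℕ) × ℕ) × ℕ) × ℕ) × ℕ => (z.1.2, z.2))
      ((continuous_snd.comp continuous_fst).prodMk continuous_snd) (fun d => d.1 ≤ d.2)
  · -- z : ((((((f, a), n), b), m), c), j)
    have c0 : Continuous fun z : ((((((ℕ → ℕ) × ℕ) × ℕ) × ℕ) × ℕ) × ℕ) × ℕ => z.1.1.1.1.1.1 := by fun_prop
    have c1 : Continuous fun z : ((((((ℕ → ℕ) × ℕ) × ℕ) × ℕ) × ℕ) × ℕ) × ℕ => (z.1.1.1.1.2, z.1.1.2, z.2) := by
      fun_prop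
    have c2 := cont_ev c0 ((continuous_of_discreteTopology (f := ε.symm)).comp c1)
    have c3 : Continuous fun z : ((((((ℕ → ℕ) × ℕ) × ℕ) × ℕ) × ℕ) × ℕ) × ℕ => (z.1.2, z.2) := by fun_prop
    exact h.dis (c3.prodMk c2) (fun d => d.1.1 ≤ d.1.2 ∧ d.2 ≠ 0)

end Pool.Agent.CGD
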